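import Mathlib

/-!
# The classes of pairs of states of the statement

`P i` are orthogonal projections summing to the identity and commuting with both states (blocks).
-/

set_option autoImplicit false

open scoped BigOperators ComplexOrder Kronecker MatrixOrder Topology
open MeasureTheory Set Matrix Filter

namespace Pool.Agent.OP

variable {b : Type} [Fintype b] [DecidableEq b]

/-- flagged mixtures of pairs each of which has joint rank at most two or contains a pure state -/
def PureOrRankTwoBlocks (σ : Fin 2 → Matrix b b ℂ) : Prop :=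
  ∃ (m : ℕ) (P : Fin m → Matrix b b ℂ), (∀ i, (P i).IsHermitian) ∧ (∀ i, P i * P i = P i) ∧
    ∑ i, P i = 1 ∧ (∀ i x, P i * σ x = σ x * P i) ∧
    ∀ i, (P i * (σ 0 + σ 1)).rank ≤ 2 ∨ ∃ x, (P i * σ x).rank ≤ 1

/-- flagged mixtures of pairs whose two states differ by a pure state: orthogonal projections `P i`
summing to the identity and commuting with both states such that in every block one of
`S - mu R`, `R - mu S` (`S`, `R` the two blocks) is positive semidefinite of rank at most one for
some `mu ≥ 0`, or the joint rank is at most two -/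
def DiffBlocks (σ : Fin 2 → Matrix b b ℂ) : Prop :=
  ∃ (m : ℕ) (P : Fin m → Matrix b b ℂ), (∀ i, (P i).IsHermitian) ∧ (∀ i, P i * P i = P i) ∧
    ∑ i, P i = 1 ∧ (∀ i x, P i * σ x = σ x * P i) ∧
    ∀ i, (P i * (σ 0 + σ 1)).rank ≤ 2 ∨ ∃ (x : Fin 2) (mu : ℝ), 0 ≤ mu ∧
      (P i * (σ x - (mu : ℂ) • σ (1 - x))).PosSemidef ∧
      (P i * (σ x - (mu : ℂ) • σ (1 - x))).rank ≤ 1

end Pool.Agent.OP
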