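import Pool.Agent.Lib_helper25.OPS.States2
import Pool.Agent.Lib_helper64.OPS.Glue2
import Pool.Agent.Lib_helper64.OPS.Two
import Pool.Agent.Lib_helper98.OPS.PosF
import Pool.Agent.Lib_helper74.OPS.DerFin
import Pool.Agent.Lib_helper4.QS.Fin

/-!
# Final assembly

`α ∈ (4,5)`: one side a flagged mixture of blocks each of which has joint rank at most two or
consists of two matrices differing by a matrix of rank one, up to a factor (`S = mu R + phi phi*`,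
`mu ≥ 0`; `mu = 0`: one of the two states is pure), the other side arbitrary.
Every `α > 3`: both sides flagged mixtures of blocks of joint rank at most two or containing a pure
state.
-/

set_option autoImplicit false
set_option linter.unusedSectionVars false

open scoped BigOperators ComplexOrder Kronecker MatrixOrder Topology
open MeasureTheory Set Matrix Filter

namespace Pool.Agent.OP

open Pool.Agent.RC Pool.Agent.LDK Pool.Agent.QS Pool.Agent.OPS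
open Pool.Agent.Lib_helper98.Renyi

variable {ι κ b : Type} [Fintype ι] [DecidableEq ι] [Fintype κ] [DecidableEq κ]
  [Fintype b] [DecidableEq b]

theorem strictStep2 {p : ℝ} (hp : 3 < p) (hDer : DerTarget) (hPos : PosTarget p)
    {A₁ D₁ : Matrix ι ι ℂ}
    (ha : (A₁ + D₁).PosDef) (hb : (A₁ - D₁).PosDef) : StrictStep2 p A₁ D₁ := by
  intro n hf mu hm lam hl hml be hbe0 hbp y hy
  have hbn : ∀ j : Fin (n + 1), 0 ≤ be j := by
    intro j
    by_cases h : j = 0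
    · rw [h, hbe0]
    · exact (hbp j h).le
  exact step_strict2_pd hp hDer hPos ha hb hl.le hm.le hbe0 hbp (fun y => AY mu be lam y)
    (fun y => DY mu be lam y) (fun y => Y_pair hbn hl.le hm.le) (fun y => AY_add_DY)
    (fun y => AY_sub_DY) (fun z hz hz0 => hf mu hm.le lam hl.le hml.le be hbn z hz hz0) y hy

/-- `4 < α < 5` -/
theorem diff45 {σ₁ : Fin 2 → Matrix ι ι ℂ} {σ₂ : Fin 2 → Matrix κ κ ℂ}
    (h₁ : ∀ x, IsDensity (σ₁ x)) (h₂ : ∀ x, IsDensity (σ₂ x)) {α : ℝ} (h4 : 4 < α) (h5 : α < 5)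
    (hf : DiffBlocks σ₁ ∨ DiffBlocks σ₂) :
    Hsum α σ₁ σ₂ ≤ Fval α σ₁ σ₂ :=
  state_le_diff h₁ h₂ (by linarith) (by linarith)
    (Pool.Agent.Lib_helper19.QS.strictCore α (by linarith))
    (fun _ _ _ _ _ ha hb => strictStep2 (by linarith) Pool.Agent.Lib_helper74.OPS.derTarget
      (Pool.Agent.Lib_helper98.OPS.posTarget h4 h5) ha hb) hf

theorem derPD : DerPD := by
  intro m ι _ _ _ _ P Q hP hQ be j0 hb0 hb y hy p _
  obtain ⟨δ, M, hδ, h⟩ := Pool.Agent.Lib_helper74.OPS.der_pd hP hQ be j0 hb0 hb y hy p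
  exact ⟨δ, hδ, M, fun c ρ hρ hρc h1 h2 => (h c ρ hρ hρc h1 h2).2.2⟩

theorem derU : DerU := by
  intro m ι _ _ _ _ P hP u be j0 hb0 hb y hy p hp
  obtain ⟨δ, M, hδ, h⟩ := Pool.Agent.Lib_helper74.OPS.der_u hP u be j0 hb0 hb y hy
    (p := p) (by linarith)
  exact ⟨δ, hδ, M, fun c ρ hρ hρc h1 h2 => h c ρ hρ hρc h1 h2⟩

/-- each of the two pairs contains a matrix of rank at most one -/
theorem ineq_pure_pure {p : ℝ} (hp : 3 < p) {A₁ D₁ : Matrix ι ι ℂ} (h₁ : IsPsdPair A₁ D₁)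
    (hr₁ : (A₁ + D₁).rank ≤ 1 ∨ (A₁ - D₁).rank ≤ 1) {A D : Matrix κ κ ℂ} (h : IsPsdPair A D)
    (hr : (A + D).rank ≤ 1 ∨ (A - D).rank ≤ 1) : Ineq p A₁ D₁ A D := by
  have key : ∀ {A₁ D₁ : Matrix ι ι ℂ}, IsPsdPair A₁ D₁ → (A₁ + D₁).rank ≤ 1 →
      Ineq p A₁ D₁ A D := fun {A₁ D₁} h₁ hr₁ =>
    ineq_pure_two (by linarith) (fun ι _ _ A₁ D₁ ha hr hb =>
      strictStep_one hp Pool.Agent.Lib_helper74.OPS.derTarget derPD derU ha hr hb) h₁ hr₁ h hr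
  rcases hr₁ with hr₁ | hr₁
  · exact key h₁ hr₁
  · apply Ineq.swap
    apply Ineq.neg
    refine (key (pair_neg h₁) ?_).swap
    rwa [← sub_eq_add_neg]

/-- both pairs of joint rank at most two or containing a matrix of rank at most one -/
theorem ineq_two_un {p : ℝ} (hp : 3 < p) {A₁ D₁ : Matrix ι ι ℂ} (h₁ : IsPsdPair A₁ D₁)
    (hq₁ : UnQ ι (A₁ + D₁) (A₁ - D₁)) {A D : Matrix κ κ ℂ} (h : IsPsdPair A D)
    (hq : UnQ κ (A + D) (A - D)) : Ineq p A₁ D₁ A D := by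
  have hp0 : 0 < p := by linarith
  have hc := Pool.Agent.Lib_helper19.QS.strictCore p hp
  have hrk : ∀ {κ : Type} [Fintype κ] [DecidableEq κ] {A D : Matrix κ κ ℂ},
      RkQ 2 κ (A + D) (A - D) → A.rank ≤ 2 := by
    intro κ _ _ A D hq
    unfold RkQ at hq
    have e : A + D + (A - D) = ((2 : ℂ) • (1 : Matrix κ κ ℂ)) * A := by
      rw [Matrix.smul_mul, Matrix.one_mul]; module
    have e2 : A = ((1 / 2 : ℂ) • (1 : Matrix κ κ ℂ)) * (A + D + (A - D)) := by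
      rw [e, ← Matrix.mul_assoc, Matrix.smul_mul, Matrix.one_mul, smul_smul]
      norm_num
    rw [e2]
    exact (Matrix.rank_mul_le_right _ _).trans hq
  rcases hq with hq | hq
  · exact ineq_rank_two hp0 hc h₁ h (hrk hq)
  · rcases hq₁ with hq₁ | hq₁
    · exact (ineq_rank_two hp0 hc h h₁ (hrk hq₁)).swap
    · exact ineq_pure_pure hp h₁ hq₁ h hq

/-- a pure state on each side (or joint rank at most two), flagged, every `α > 3` -/
theorem state_le_two_un {σ₁ : Fin 2 → Matrix ι ι ℂ} {σ₂ : Fin 2 → Matrix κ κ ℂ}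
    (h₁ : ∀ x, IsDensity (σ₁ x)) (h₂ : ∀ x, IsDensity (σ₂ x)) {α : ℝ} (h3 : 3 < α)
    (hf : PureOrRankTwoBlocks σ₁) (hf' : PureOrRankTwoBlocks σ₂) :
    Hsum α σ₁ σ₂ ≤ Fval α σ₁ σ₂ := by
  have h0 : 0 < α := by linarith
  refine le_of_ineq h₁ h₂ h0 (by linarith) ?_
  have p₁ := psdPair_state h₁ h0
  have p₂ := psdPair_state h₂ h0
  apply Ineq.swap
  exact Ineq.flagQ h0 (Q := UnQ) p₂ (fun A D h hq => Ineq.swap
    (Ineq.flagQ h0 (Q := UnQ) h (fun A' D' h' hq' => ineq_two_un h3 h hq h' hq') p₂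
      (flagQ_un h₂ h0 hf'))) p₁ (flagQ_un h₁ h0 hf)

/-- the final form -/
theorem side {b₁ b₂ : Type} [Fintype b₁] [DecidableEq b₁] [Fintype b₂]
    [DecidableEq b₂] (σ₁ : Fin 2 → Matrix b₁ b₁ ℂ) (σ₂ : Fin 2 → Matrix b₂ b₂ ℂ)
    (h₁ : ∀ x, IsDensity (σ₁ x)) (h₂ : ∀ x, IsDensity (σ₂ x)) (α : ℝ)
    (hf : ((4 < α ∧ α < 5) ∧ (DiffBlocks σ₁ ∨ DiffBlocks σ₂)) ∨
      (4 < α ∧ PureOrRankTwoBlocks σ₁ ∧ PureOrRankTwoBlocks σ₂) ∨
      ((Fintype.card b₁ ≤ 2 ∨ RankTwoBlocks σ₁) ∨ (Fintype.card b₂ ≤ 2 ∨ RankTwoBlocks σ₂))) :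
    (((0 < α ∧ α ≤ 2) ∨ 3 ≤ α) → Hsum α σ₁ σ₂ ≤ Fval α σ₁ σ₂) ∧
      ((2 ≤ α ∧ α ≤ 3) → Fval α σ₁ σ₂ ≤ Hsum α σ₁ σ₂) := by
  rcases hf with ⟨⟨h4, h5⟩, h⟩ | ⟨h4, h, h'⟩ | h
  · exact ⟨fun _ => diff45 h₁ h₂ h4 h5 h, fun h => by linarith [h.2]⟩
  · exact ⟨fun _ => state_le_two_un h₁ h₂ (by linarith) h h', fun h => by linarith [h.2]⟩
  · have h' : RankTwoBlocks σ₁ ∨ RankTwoBlocks σ₂ :=
      h.imp (fun h => h.elim rankTwoBlocks_of_card id)
        (fun h => h.elim rankTwoBlocks_of_card id)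
    exact ⟨fun hα => qubit_le (fun p hp => Pool.Agent.Lib_helper19.QS.strictCore p hp) h₁ h₂
      h' hα, fun h => qubit_ge h₁ h₂ h' h.1 h.2⟩

end Pool.Agent.OP
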