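import Pool.Agent.Lib_helper4.QS.Red
import Pool.Agent.Lib_helper25.OPS.Blocks

/-!
# ONE PURE STATE: states, normal form, faces, induction

`Ineq p A₁ D₁ A₂ D₂` is the inequality for one pair of pairs. `MaxStep` is the statement supplied by
the maximum principle.
-/

set_option autoImplicit false
set_option linter.unusedSectionVars false

open scoped BigOperators ComplexOrder Kronecker MatrixOrder Topology
open MeasureTheory Set Matrix Filter

namespace Pool.Agent.OP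

open Pool.Agent.RC Pool.Agent.LDK Pool.Agent.QS
open Pool.Agent.Lib_helper98.Renyi Pool.Agent.Lib_helper59.RCT

variable {ι κ b : Type} [Fintype ι] [DecidableEq ι] [Fintype κ] [DecidableEq κ]
  [Fintype b] [DecidableEq b]

/-- the inequality for one pair of pairs -/
def Ineq (p : ℝ) (A₁ D₁ : Matrix ι ι ℂ) (A₂ D₂ : Matrix κ κ ℂ) : Prop :=
  G p A₁ D₁ * G p A₂ D₂ ≤ (2 ^ (p - 1) - 1) * G p (A₁ ⊗ₖ A₂) (D₁ ⊗ₖ D₂)

theorem Ineq.swap {p : ℝ} {A₁ D₁ : Matrix ι ι ℂ} {A₂ D₂ : Matrix κ κ ℂ}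
    (h : Ineq p A₁ D₁ A₂ D₂) : Ineq p A₂ D₂ A₁ D₁ := by
  unfold Ineq at h ⊢
  rw [G_swap, mul_comm (G p A₂ D₂)]
  exact h

theorem Ineq.neg {p : ℝ} {A₁ D₁ : Matrix ι ι ℂ} {A₂ D₂ : Matrix κ κ ℂ}
    (h : Ineq p A₁ D₁ A₂ (-D₂)) : Ineq p A₁ D₁ A₂ D₂ := by
  unfold Ineq at h ⊢
  rwa [G_neg, kron_neg, G_neg] at h

theorem Ineq.flag {p : ℝ} (hp : 0 < p) {A₁ D₁ : Matrix ι ι ℂ} (h₁ : IsPsdPair A₁ D₁)
    {A₂ D₂ : Matrix κ κ ℂ} (h₂ : IsPsdPair A₂ D₂)
    {m : ℕ} {P : Fin m → Matrix κ κ ℂ} (h0 : ∀ i, (P i).IsHermitian)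
    (h1 : ∀ i, P i * P i = P i) (h2 : ∑ i, P i = 1) (h3 : ∀ i, P i * A₂ = A₂ * P i)
    (h4 : ∀ i, P i * D₂ = D₂ * P i) (h : ∀ i, Ineq p A₁ D₁ (P i * A₂) (P i * D₂)) :
    Ineq p A₁ D₁ A₂ D₂ := by
  unfold Ineq
  rw [G_kron_flag hp h₁.pos.1 h₁.herm h₂.pos.1 h₂.herm h0 h1 h2 h3 h4,
    G_flag hp h₂.pos.1 h₂.herm h0 h1 h2 h3 h4, Finset.mul_sum, Finset.mul_sum]
  exact Finset.sum_le_sum fun i _ => h i

theorem Ineq.flagQ {p : ℝ} (hp : 0 < p) {Q : MP2} {A₁ D₁ : Matrix ι ι ℂ}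
    (h₁ : IsPsdPair A₁ D₁) {A D : Matrix b b ℂ}
    (hc : ∀ A D : Matrix b b ℂ, IsPsdPair A D → Q b (A + D) (A - D) → Ineq p A₁ D₁ A D)
    (h : IsPsdPair A D) (hf : FlagQ Q (A + D) (A - D)) : Ineq p A₁ D₁ A D := by
  obtain ⟨m, P, h1, h2, h3, h4, h5, h6⟩ := hf
  have hcm := fun i => comm_of_add_sub (h4 i) (h5 i)
  refine Ineq.flag hp h₁ h h1 h2 h3 (fun i => (hcm i).1) (fun i => (hcm i).2) fun i =>
    hc _ _ (IsPsdPair.flag h (h1 i) (h2 i) (hcm i).1 (hcm i).2) ?_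
  have := h6 i
  rwa [Matrix.mul_add, Matrix.mul_sub] at this

/-- compression of the second system -/
theorem Ineq.compress {p : ℝ} (hp : 0 < p) {A₁ D₁ : Matrix ι ι ℂ} (h₁ : IsPsdPair A₁ D₁)
    {A D : Matrix b b ℂ} (h : IsPsdPair A D) {V : Matrix b κ ℂ} (hV : V * Vᴴ * A = A)
    (h2 : Ineq p A₁ D₁ (Vᴴ * A * V) (Vᴴ * D * V)) : Ineq p A₁ D₁ A D := by
  unfold Ineq at h2 ⊢
  rw [G_compress hp h hV] at h2
  have hk := h₁.kron h
  have e1 : A₁ ⊗ₖ (Vᴴ * A * V) = ((1 : Matrix ι ι ℂ) ⊗ₖ V)ᴴ * (A₁ ⊗ₖ A) *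
      ((1 : Matrix ι ι ℂ) ⊗ₖ V) := by
    rw [Matrix.conjTranspose_kronecker, Matrix.conjTranspose_one, ← Matrix.mul_kronecker_mul,
      ← Matrix.mul_kronecker_mul, Matrix.one_mul, Matrix.mul_one]
  have e2 : D₁ ⊗ₖ (Vᴴ * D * V) = ((1 : Matrix ι ι ℂ) ⊗ₖ V)ᴴ * (D₁ ⊗ₖ D) *
      ((1 : Matrix ι ι ℂ) ⊗ₖ V) := by
    rw [Matrix.conjTranspose_kronecker, Matrix.conjTranspose_one, ← Matrix.mul_kronecker_mul,
      ← Matrix.mul_kronecker_mul, Matrix.one_mul, Matrix.mul_one]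
  rw [e1, e2, G_compress hp hk] at h2
  · exact h2
  · rw [Matrix.conjTranspose_kronecker, Matrix.conjTranspose_one, ← Matrix.mul_kronecker_mul,
      ← Matrix.mul_kronecker_mul, Matrix.one_mul, Matrix.one_mul, hV]

theorem G_eq (p : ℝ) (A D : Matrix ι ι ℂ) :
    G p A D = (DUAL.tp p (A + D) + DUAL.tp p (A - D)) / 2 - DUAL.tp p A := rfl

theorem tp_zero {p : ℝ} (hp : 0 < p) : DUAL.tp p (0 : Matrix ι ι ℂ) = 0 := by
  have h2 := DUAL.tp_smul (α := p) (M := (0 : Matrix ι ι ℂ)) Matrix.PosSemidef.zero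
    (c := 0) le_rfl
  rw [smul_zero, Real.zero_rpow hp.ne', zero_mul] at h2
  exact h2

/-- one of the two matrices vanishes: equality -/
theorem ineq_zero {p : ℝ} (hp : 0 < p) {A₁ D₁ : Matrix ι ι ℂ} (h₁ : IsPsdPair A₁ D₁)
    {A D : Matrix κ κ ℂ} (h : IsPsdPair A D) (h0 : A + D = 0) : Ineq p A₁ D₁ A D := by
  have hD : D = -A := (neg_eq_of_add_eq_zero_right h0).symm
  subst hD
  unfold Ineq
  rw [G_eq, G_eq, G_eq]
  have e1 : A₁ ⊗ₖ A + D₁ ⊗ₖ (-A) = (A₁ - D₁) ⊗ₖ A := by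
    ext i j
    simp only [Matrix.add_apply, Matrix.sub_apply, Matrix.neg_apply, Matrix.kroneckerMap_apply]
    ring
  have e2 : A₁ ⊗ₖ A - D₁ ⊗ₖ (-A) = (A₁ + D₁) ⊗ₖ A := by
    ext i j
    simp only [Matrix.add_apply, Matrix.sub_apply, Matrix.neg_apply, Matrix.kroneckerMap_apply]
    ring
  have e3 : A - -A = ((2 : ℝ) : ℂ) • A := by
    rw [sub_neg_eq_add]
    push_cast
    module
  rw [e1, e2, h0, tp_zero hp, e3, DUAL.tp_smul h.pos (by norm_num), DUAL.tp_kron h₁.sub h.pos,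
    DUAL.tp_kron h₁.add h.pos, DUAL.tp_kron h₁.pos h.pos]
  have e4 : (2 : ℝ) ^ p = 2 * 2 ^ (p - 1) := by
    nth_rewrite 2 [← Real.rpow_one 2]
    rw [← Real.rpow_add (by norm_num)]
    congr 1
    ring
  rw [e4]
  apply le_of_eq
  ring

/-! ### the normal form -/

/-- `phi phi^T`, `phi_j = sqrt (y_j)` -/
noncomputable def MX {m : ℕ} (y : Fin m → ℝ) : Matrix (Fin m) (Fin m) ℂ :=
  Matrix.of fun i j => ((Real.sqrt (y i) * Real.sqrt (y j) : ℝ) : ℂ)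

/-- `diag be + lam phi phi^T` -/
noncomputable def NX {m : ℕ} (be : Fin m → ℝ) (lam : ℝ) (y : Fin m → ℝ) :
    Matrix (Fin m) (Fin m) ℂ :=
  Matrix.diagonal (fun i => (be i : ℂ)) + (lam : ℂ) • MX y

noncomputable def AX {m : ℕ} (be : Fin m → ℝ) (lam : ℝ) (y : Fin m → ℝ) :
    Matrix (Fin m) (Fin m) ℂ := (1 / 2 : ℂ) • (MX y + NX be lam y)

noncomputable def DX {m : ℕ} (be : Fin m → ℝ) (lam : ℝ) (y : Fin m → ℝ) :
    Matrix (Fin m) (Fin m) ℂ := (1 / 2 : ℂ) • (MX y - NX be lam y)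

section normal

variable {m : ℕ} {be : Fin m → ℝ} {lam : ℝ} {y : Fin m → ℝ}

theorem AX_add_DX : AX be lam y + DX be lam y = MX y := by
  unfold AX DX; module

theorem AX_sub_DX : AX be lam y - DX be lam y = NX be lam y := by
  unfold AX DX; module

theorem MX_eq : MX y = vecMulVec (fun i => ((Real.sqrt (y i) : ℝ) : ℂ))
    (star fun i => ((Real.sqrt (y i) : ℝ) : ℂ)) := by
  ext i j
  simp [MX, vecMulVec_apply]

theorem MX_psd : (MX y).PosSemidef := by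
  rw [MX_eq]
  exact Matrix.posSemidef_vecMulVec_self_star _

theorem MX_rank : (MX y).rank ≤ 1 := by
  rw [MX_eq]
  exact Matrix.rank_vecMulVec_le _ _

theorem NX_psd (hbe : ∀ i, 0 ≤ be i) (hl : 0 ≤ lam) : (NX be lam y).PosSemidef := by
  refine Matrix.PosSemidef.add ?_ ?_
  · refine Matrix.PosSemidef.diagonal fun i => ?_
    simpa using hbe i
  · exact MX_psd.smul (by exact_mod_cast hl)

theorem X_pair (hbe : ∀ i, 0 ≤ be i) (hl : 0 ≤ lam) : IsPsdPair (AX be lam y) (DX be lam y) where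
  pos := by
    have h := (MX_psd (y := y)).add (NX_psd (y := y) hbe hl)
    exact posSemidef_half_smul h
  sub := by rw [AX_sub_DX]; exact NX_psd hbe hl
  add := by rw [AX_add_DX]; exact MX_psd

end normal

/-! ### faces -/

/-- the inequality for rank-one pairs of joint rank at most `n` -/
def RkOne (p : ℝ) (A₁ D₁ : Matrix ι ι ℂ) (n : ℕ) : Prop :=
  ∀ (κ : Type) [Fintype κ] [DecidableEq κ] (A D : Matrix κ κ ℂ), IsPsdPair A D →
    (A + D).rank ≤ 1 → A.rank ≤ n → Ineq p A₁ D₁ A D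

/-- the projection on one coordinate -/
def EJ {m : ℕ} (j : Fin m) : Matrix (Fin m) (Fin m) ℂ :=
  Matrix.diagonal fun i => if i = j then 1 else 0

section face

variable {m : ℕ} {be : Fin m → ℝ} {lam : ℝ} {y : Fin m → ℝ} {j : Fin m}

theorem EJ_herm : (EJ j).IsHermitian := by
  unfold EJ Matrix.IsHermitian
  rw [Matrix.diagonal_conjTranspose]
  congr 1
  funext i
  by_cases h : i = j <;> simp [h]

theorem EJ_idem : EJ j * EJ j = EJ j := by
  unfold EJ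
  rw [Matrix.diagonal_mul_diagonal]
  congr 1
  funext i
  by_cases h : i = j <;> simp [h]

theorem EJ_MX (hj : y j = 0) : EJ j * MX y = 0 := by
  ext i k
  unfold EJ MX
  rw [Matrix.diagonal_mul]
  by_cases h : i = j
  · subst h; simp [hj]
  · simp [h]

theorem MX_EJ (hj : y j = 0) : MX y * EJ j = 0 := by
  ext i k
  unfold EJ MX
  rw [Matrix.mul_diagonal]
  by_cases h : k = j
  · subst h; simp [hj]
  · simp [h]

theorem EJ_NX (hj : y j = 0) : EJ j * NX be lam y = NX be lam y * EJ j := by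
  unfold NX
  rw [Matrix.mul_add, Matrix.add_mul, Matrix.mul_smul, Matrix.smul_mul, EJ_MX hj, MX_EJ hj]
  unfold EJ
  rw [Matrix.diagonal_mul_diagonal, Matrix.diagonal_mul_diagonal]
  congr 2
  funext i
  ring

theorem EJ_AX (hj : y j = 0) : EJ j * AX be lam y = AX be lam y * EJ j := by
  unfold AX
  rw [Matrix.mul_smul, Matrix.smul_mul, Matrix.mul_add, Matrix.add_mul, EJ_MX hj, MX_EJ hj,
    EJ_NX hj]

theorem EJ_DX (hj : y j = 0) : EJ j * DX be lam y = DX be lam y * EJ j := by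
  unfold DX
  rw [Matrix.mul_smul, Matrix.smul_mul, Matrix.mul_sub, Matrix.sub_mul, EJ_MX hj, MX_EJ hj,
    EJ_NX hj]

end face

theorem rank_compl {n : ℕ} (j : Fin (n + 1)) : (1 - EJ j).rank ≤ n := by
  have e : (1 - EJ j : Matrix (Fin (n + 1)) (Fin (n + 1)) ℂ) =
      Matrix.diagonal fun i => if i = j then 0 else 1 := by
    unfold EJ
    rw [← Matrix.diagonal_one, Matrix.diagonal_sub]
    congr 1
    funext i
    by_cases h : i = j <;> simp [h]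
  rw [e, Matrix.rank_diagonal]
  have h1 : Fintype.card {i : Fin (n + 1) // (if i = j then (0 : ℂ) else 1) ≠ 0} =
      Fintype.card {i : Fin (n + 1) // i ≠ j} := by
    refine Fintype.card_congr (Equiv.subtypeEquivRight fun i => ?_)
    by_cases h : i = j <;> simp [h]
  rw [h1, Fintype.card_subtype_compl, Fintype.card_fin]
  simp

/-- the face `y_j = 0` -/
theorem ineq_face {p : ℝ} (hp : 0 < p) {A₁ D₁ : Matrix ι ι ℂ} (h₁ : IsPsdPair A₁ D₁) {n : ℕ}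
    (hn : RkOne p A₁ D₁ n) {be : Fin (n + 1) → ℝ} (hbe : ∀ i, 0 ≤ be i) {lam : ℝ}
    (hl : 0 ≤ lam) {y : Fin (n + 1) → ℝ} {j : Fin (n + 1)} (hj : y j = 0) :
    Ineq p A₁ D₁ (AX be lam y) (DX be lam y) := by
  have hX := X_pair (y := y) hbe hl
  have cA : ∀ i : Fin 2, (![EJ j, 1 - EJ j] i) * AX be lam y =
      AX be lam y * (![EJ j, 1 - EJ j] i) := by
    intro i
    fin_cases i
    · exact EJ_AX hj
    · show (1 - EJ j) * _ = _ * (1 - EJ j)
      rw [Matrix.sub_mul, Matrix.mul_sub, Matrix.one_mul, Matrix.mul_one, EJ_AX hj]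
  have cD : ∀ i : Fin 2, (![EJ j, 1 - EJ j] i) * DX be lam y =
      DX be lam y * (![EJ j, 1 - EJ j] i) := by
    intro i
    fin_cases i
    · exact EJ_DX hj
    · show (1 - EJ j) * _ = _ * (1 - EJ j)
      rw [Matrix.sub_mul, Matrix.mul_sub, Matrix.one_mul, Matrix.mul_one, EJ_DX hj]
  have hH : ∀ i : Fin 2, (![EJ j, 1 - EJ j] i).IsHermitian := by
    intro i
    fin_cases i
    · exact EJ_herm
    · exact Matrix.isHermitian_one.sub EJ_herm
  have hI : ∀ i : Fin 2, (![EJ j, 1 - EJ j] i) * (![EJ j, 1 - EJ j] i) =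
      ![EJ j, 1 - EJ j] i := by
    intro i
    fin_cases i
    · exact EJ_idem
    · show (1 - EJ j) * (1 - EJ j) = 1 - EJ j
      rw [Matrix.sub_mul, Matrix.mul_sub, Matrix.mul_sub, Matrix.one_mul, Matrix.one_mul,
        Matrix.mul_one, EJ_idem]
      abel
  refine Ineq.flag hp h₁ hX (P := ![EJ j, 1 - EJ j]) hH hI ?_ cA cD ?_
  · rw [Fin.sum_univ_two]
    show EJ j + (1 - EJ j) = 1
    abel
  · intro i
    have hpair := IsPsdPair.flag hX (hH i) (hI i) (cA i) (cD i)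
    fin_cases i
    · refine ineq_zero hp h₁ hpair ?_
      rw [← Matrix.mul_add, AX_add_DX]
      exact EJ_MX hj
    · refine hn _ _ _ hpair ?_ ?_
      · rw [← Matrix.mul_add, AX_add_DX]
        exact (Matrix.rank_mul_le_right _ _).trans MX_rank
      · exact (Matrix.rank_mul_le_left _ _).trans (rank_compl j)

/-! ### normal form of a rank-one pair -/

theorem nonneg_eq {c : ℂ} (hc : 0 ≤ c) : c = ((c.re : ℝ) : ℂ) := by
  rw [Complex.le_def] at hc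
  apply Complex.ext
  · simp
  · simpa using hc.2.symm

theorem exists_vec {M : Matrix b b ℂ} (hM : M.PosSemidef) (hr : M.rank ≤ 1) :
    ∃ v : b → ℂ, M = vecMulVec v (star v) := by
  obtain ⟨V, hV⟩ := exists_support hM hr
  have h2 : M * (V * Vᴴ) = M := by
    have := congrArg conjTranspose hV
    rw [conjTranspose_mul, conjTranspose_mul, conjTranspose_conjTranspose, hM.1.eq] at this
    exact this
  have h1 : M = V * (Vᴴ * M * V) * Vᴴ := by
    calc M = V * Vᴴ * M := hV.symm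
      _ = V * Vᴴ * (M * (V * Vᴴ)) := by rw [h2]
      _ = _ := by simp only [Matrix.mul_assoc]
  have hK := hM.conjTranspose_mul_mul_same V
  obtain ⟨K, hKd⟩ : ∃ K, K = Vᴴ * M * V := ⟨_, rfl⟩
  rw [← hKd] at h1 hK
  have hc : 0 ≤ K 0 0 := hK.diag_nonneg
  have hcr := nonneg_eq hc
  have hre : 0 ≤ (K 0 0).re := by
    rw [Complex.le_def] at hc
    simpa using hc.1
  refine ⟨fun i => ((Real.sqrt (K 0 0).re : ℝ) : ℂ) * V i 0, ?_⟩
  have hs : ((Real.sqrt (K 0 0).re : ℝ) : ℂ) * ((Real.sqrt (K 0 0).re : ℝ) : ℂ) = K 0 0 := by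
    rw [← Complex.ofReal_mul, Real.mul_self_sqrt hre]
    exact hcr.symm
  rw [h1]
  ext i j
  simp only [Matrix.mul_apply, Fin.sum_univ_one, Fin.isValue, vecMulVec_apply, Pi.star_apply,
    star_mul', conjTranspose_apply, RCLike.star_def, Complex.conj_ofReal]
  linear_combination (-(V i 0) * (starRingEnd ℂ) (V j 0)) * hs

theorem exists_singular {N : Matrix b b ℂ} (hN : N.PosSemidef) {v : b → ℂ} (hv : v ≠ 0) :
    ∃ lam : ℝ, 0 ≤ lam ∧ (N - (lam : ℂ) • vecMulVec v (star v)).PosSemidef ∧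
      ∃ w : b → ℂ, w ≠ 0 ∧ (N - (lam : ℂ) • vecMulVec v (star v)) *ᵥ w = 0 := by
  by_cases hd : N.det = 0
  · obtain ⟨w, hw, hNw⟩ := Matrix.exists_mulVec_eq_zero_iff.2 hd
    refine ⟨0, le_rfl, ?_, w, hw, ?_⟩
    · simpa using hN
    · simpa using hNw
  · have hP : N.PosDef := hN.posDef_iff_det_ne_zero.2 hd
    have hU : IsUnit N.det := isUnit_iff_ne_zero.2 hd
    let _ : Invertible N := Matrix.invertibleOfIsUnitDet N hU
    obtain ⟨c, hcd⟩ : ∃ c : ℂ, c = star v ⬝ᵥ (N⁻¹ *ᵥ v) := ⟨_, rfl⟩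
    have hcpos : 0 < c := by
      rw [hcd]
      exact hP.inv.dotProduct_mulVec_pos hv
    have hc0 : c ≠ 0 := ne_of_gt hcpos
    have hcr : c = ((c.re : ℝ) : ℂ) := nonneg_eq hcpos.le
    have hre : 0 < c.re := by
      rw [Complex.lt_def] at hcpos
      simpa using hcpos.1
    obtain ⟨B, hB⟩ : ∃ B : Matrix b (Fin 1) ℂ, B = Matrix.of fun i _ => v i := ⟨_, rfl⟩
    have e1 : Bᴴ * N⁻¹ * B = Matrix.diagonal fun _ => c := by
      ext i j
      have hi : i = j := Subsingleton.elim _ _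
      subst hi
      rw [Matrix.diagonal_apply_eq, hcd, Matrix.mul_assoc, hB]
      simp only [Matrix.mul_apply, conjTranspose_apply, Matrix.of_apply, dotProduct,
        Pi.star_apply, Matrix.mulVec]
    have hD : (Matrix.diagonal fun _ : Fin 1 => c).PosDef := by
      rw [Matrix.posDef_diagonal_iff]
      intro _
      exact hcpos
    let _ : Invertible (Matrix.diagonal fun _ : Fin 1 => c) :=
      Matrix.invertibleOfIsUnitDet _ (by
        rw [Matrix.det_diagonal, Fin.prod_univ_one]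
        exact isUnit_iff_ne_zero.2 hc0)
    have h1 : (fromBlocks N B Bᴴ (Matrix.diagonal fun _ : Fin 1 => c)).PosSemidef := by
      rw [hP.fromBlocks₁₁, e1, sub_self]
      exact Matrix.PosSemidef.zero
    rw [Matrix.PosDef.fromBlocks₂₂ _ _ hD] at h1
    have e2 : B * (Matrix.diagonal fun _ : Fin 1 => c)⁻¹ * Bᴴ =
        ((c.re⁻¹ : ℝ) : ℂ) • vecMulVec v (star v) := by
      have e3 : (Matrix.diagonal fun _ : Fin 1 => c)⁻¹ = Matrix.diagonal fun _ : Fin 1 => c⁻¹ := by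
        apply Matrix.inv_eq_left_inv
        rw [Matrix.diagonal_mul_diagonal, ← Matrix.diagonal_one]
        congr 1
        funext _
        exact inv_mul_cancel₀ hc0
      rw [e3, hB]
      ext i j
      have : ((c.re⁻¹ : ℝ) : ℂ) = c⁻¹ := by
        rw [Complex.ofReal_inv, ← hcr]
      rw [Matrix.smul_apply, this]
      simp only [Matrix.mul_apply, Matrix.diagonal_apply_eq, Fin.sum_univ_one,
        conjTranspose_apply, Matrix.of_apply, vecMulVec_apply, Pi.star_apply, smul_eq_mul]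
      ring
    rw [e2] at h1
    have hNw : N *ᵥ (N⁻¹ *ᵥ v) = v := by
      rw [Matrix.mulVec_mulVec, Matrix.mul_nonsing_inv _ hU, Matrix.one_mulVec]
    refine ⟨c.re⁻¹, (inv_pos.2 hre).le, h1, N⁻¹ *ᵥ v, ?_, ?_⟩
    · intro h
      rw [h, Matrix.mulVec_zero] at hNw
      exact hv hNw.symm
    · rw [Matrix.sub_mulVec, hNw, Matrix.smul_mulVec, Matrix.vecMulVec_mulVec, ← hcd,
        Complex.ofReal_inv, ← hcr]
      ext i
      simp [hc0]

/-- spectral decomposition of a singular positive semidefinite matrix, kernel first -/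
theorem exists_spectral_ker {n : ℕ} {N : Matrix (Fin (n + 1)) (Fin (n + 1)) ℂ}
    (hN : N.PosSemidef) {w : Fin (n + 1) → ℂ} (hw : w ≠ 0) (hNw : N *ᵥ w = 0) :
    ∃ (U : Matrix (Fin (n + 1)) (Fin (n + 1)) ℂ) (c : Fin (n + 1) → ℝ), Uᴴ * U = 1 ∧
      U * Uᴴ = 1 ∧ (∀ i, 0 ≤ c i) ∧ c 0 = 0 ∧
      N = U * Matrix.diagonal (fun i => (c i : ℂ)) * Uᴴ := by
  obtain ⟨U, c, h1, h2, hc, hU⟩ := exists_spectral_nonneg hN
  obtain ⟨i0, hi0⟩ : ∃ i, c i = 0 := by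
    by_contra hcon
    push Not at hcon
    have h3 : Uᴴ *ᵥ (N *ᵥ w) = Matrix.diagonal (fun i => (c i : ℂ)) *ᵥ (Uᴴ *ᵥ w) := by
      rw [hU, Matrix.mulVec_mulVec, Matrix.mulVec_mulVec, ← Matrix.mul_assoc,
        ← Matrix.mul_assoc, h1, Matrix.one_mul]
    rw [hNw, Matrix.mulVec_zero] at h3
    have h4 : Uᴴ *ᵥ w = 0 := by
      funext i
      have h5 := congrFun h3 i
      rw [Matrix.mulVec_diagonal, Pi.zero_apply] at h5
      rcases mul_eq_zero.1 h5.symm with h | h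
      · exact absurd (by exact_mod_cast h) (hcon i)
      · exact h
    apply hw
    have h6 : U *ᵥ (Uᴴ *ᵥ w) = w := by
      rw [Matrix.mulVec_mulVec, h2, Matrix.one_mulVec]
    rw [← h6, h4, Matrix.mulVec_zero]
  obtain ⟨σ, hσ⟩ : ∃ σ : Equiv.Perm (Fin (n + 1)), σ = Equiv.swap 0 i0 := ⟨_, rfl⟩
  refine ⟨U.submatrix id σ, fun i => c (σ i), ?_, ?_, fun i => hc _, ?_, ?_⟩
  · rw [Matrix.conjTranspose_submatrix]
    have : (Uᴴ.submatrix σ id) * (U.submatrix id σ) = (Uᴴ * U).submatrix σ σ := by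
      ext i j
      simp [Matrix.mul_apply]
    rw [this, h1, Matrix.submatrix_one_equiv]
  · rw [Matrix.conjTranspose_submatrix, Matrix.submatrix_mul_equiv, h2, Matrix.submatrix_id_id]
  · show c (σ 0) = 0
    rw [hσ, Equiv.swap_apply_left, hi0]
  · have e : (Matrix.diagonal fun i => ((c (σ i) : ℝ) : ℂ)) =
        (Matrix.diagonal fun i => (c i : ℂ)).submatrix σ σ := by
      rw [Matrix.submatrix_diagonal_equiv]
      rfl
    rw [e, Matrix.conjTranspose_submatrix, Matrix.submatrix_mul_equiv,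
      Matrix.submatrix_mul_equiv, Matrix.submatrix_id_id]
    exact hU

theorem exists_normal {n : ℕ} {B E : Matrix (Fin (n + 1)) (Fin (n + 1)) ℂ} (h : IsPsdPair B E)
    (hr : (B + E).rank ≤ 1) (h0 : B + E ≠ 0) :
    ∃ (W : Matrix (Fin (n + 1)) (Fin (n + 1)) ℂ) (be : Fin (n + 1) → ℝ) (lam : ℝ)
      (y : Fin (n + 1) → ℝ), W * Wᴴ = 1 ∧ (∀ i, 0 ≤ be i) ∧ be 0 = 0 ∧ 0 ≤ lam ∧
      (∀ i, 0 ≤ y i) ∧ Wᴴ * B * W = AX be lam y ∧ Wᴴ * E * W = DX be lam y := by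
  obtain ⟨v, hv⟩ := exists_vec h.add hr
  have hv0 : v ≠ 0 := by
    intro hz
    apply h0
    rw [hv, hz]
    ext i j
    simp [vecMulVec_apply]
  obtain ⟨lam, hl, hpsd, w, hw, hNw⟩ := exists_singular h.sub hv0
  obtain ⟨U, c, h1, h2, hc, hc0, hU⟩ := exists_spectral_ker hpsd hw hNw
  obtain ⟨v', hv'⟩ : ∃ v', v' = Uᴴ *ᵥ v := ⟨_, rfl⟩
  obtain ⟨e, he⟩ : ∃ e : Fin (n + 1) → ℂ,
      e = fun j => if v' j = 0 then 1 else v' j / ((‖v' j‖ : ℝ) : ℂ) := ⟨_, rfl⟩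
  have he1 : ∀ j, star (e j) * e j = 1 := by
    intro j
    rw [he]
    by_cases hj : v' j = 0
    · simp [hj]
    · have hn : ((‖v' j‖ : ℝ) : ℂ) ≠ 0 := by
        exact_mod_cast (norm_ne_zero_iff.2 hj)
      simp only [if_neg hj]
      rw [star_div₀, div_mul_div_comm]
      have h3 : star (v' j) * v' j = ((‖v' j‖ : ℝ) : ℂ) * ((‖v' j‖ : ℝ) : ℂ) := by
        have := Complex.conj_mul' (v' j)
        rw [RCLike.star_def, this]
        ring
      have h4 : star ((‖v' j‖ : ℝ) : ℂ) = ((‖v' j‖ : ℝ) : ℂ) := Complex.conj_ofReal _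
      rw [h3, h4]
      exact div_self (mul_ne_zero hn hn)
  have he2 : ∀ j, star (e j) * v' j = ((‖v' j‖ : ℝ) : ℂ) := by
    intro j
    rw [he]
    by_cases hj : v' j = 0
    · simp [hj]
    · have hn : ((‖v' j‖ : ℝ) : ℂ) ≠ 0 := by
        exact_mod_cast (norm_ne_zero_iff.2 hj)
      simp only [if_neg hj]
      have h3 : star (v' j) * v' j = ((‖v' j‖ : ℝ) : ℂ) * ((‖v' j‖ : ℝ) : ℂ) := by
        have := Complex.conj_mul' (v' j)
        rw [RCLike.star_def, this]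
        ring
      have h4 : star ((‖v' j‖ : ℝ) : ℂ) = ((‖v' j‖ : ℝ) : ℂ) := Complex.conj_ofReal _
      rw [star_div₀, h4, div_mul_eq_mul_div, h3, mul_div_assoc, div_self hn, mul_one]
  obtain ⟨W, hW⟩ : ∃ W, W = U * Matrix.diagonal e := ⟨_, rfl⟩
  have hWH : Wᴴ = Matrix.diagonal (fun j => star (e j)) * Uᴴ := by
    rw [hW, Matrix.conjTranspose_mul, Matrix.diagonal_conjTranspose]
    rfl
  have hWW : W * Wᴴ = 1 := by
    rw [hWH, hW]
    have h3 : Matrix.diagonal e * Matrix.diagonal (fun j => star (e j)) =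
        (1 : Matrix (Fin (n + 1)) (Fin (n + 1)) ℂ) := by
      rw [Matrix.diagonal_mul_diagonal, ← Matrix.diagonal_one]
      congr 1
      funext j
      rw [mul_comm]
      exact he1 j
    calc U * Matrix.diagonal e * (Matrix.diagonal (fun j => star (e j)) * Uᴴ)
        = U * (Matrix.diagonal e * Matrix.diagonal (fun j => star (e j))) * Uᴴ := by
          simp only [Matrix.mul_assoc]
      _ = 1 := by rw [h3, Matrix.mul_one, h2]
  have hWv : Wᴴ *ᵥ v = fun i => ((Real.sqrt (‖v' i‖ ^ 2) : ℝ) : ℂ) := by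
    funext i
    rw [hWH, ← Matrix.mulVec_mulVec, ← hv', Matrix.mulVec_diagonal, he2,
      Real.sqrt_sq (norm_nonneg _)]
  have hM : Wᴴ * (B + E) * W = MX fun i => ‖v' i‖ ^ 2 := by
    rw [hv, mul_vecMulVec, vecMulVec_mul, MX_eq, ← hWv, star_mulVec,
      conjTranspose_conjTranspose]
  have hN0 : Wᴴ * ((B - E) - (lam : ℂ) • (B + E)) * W =
      Matrix.diagonal (fun i => (c i : ℂ)) := by
    have h3 : (B - E) - (lam : ℂ) • (B + E) =
        U * Matrix.diagonal (fun i => (c i : ℂ)) * Uᴴ := by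
      rw [← hU, hv]
    rw [h3, hWH, hW]
    calc Matrix.diagonal (fun j => star (e j)) * Uᴴ *
          (U * Matrix.diagonal (fun i => (c i : ℂ)) * Uᴴ) * (U * Matrix.diagonal e)
        = Matrix.diagonal (fun j => star (e j)) * (Uᴴ * U) *
          Matrix.diagonal (fun i => (c i : ℂ)) * (Uᴴ * U) * Matrix.diagonal e := by
          simp only [Matrix.mul_assoc]
      _ = _ := by
          rw [h1, Matrix.mul_one, Matrix.mul_one, Matrix.diagonal_mul_diagonal,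
            Matrix.diagonal_mul_diagonal]
          congr 1
          funext i
          linear_combination (c i : ℂ) * he1 i
  have hN : Wᴴ * (B - E) * W = NX c lam fun i => ‖v' i‖ ^ 2 := by
    have h4 : Wᴴ * ((B - E) - (lam : ℂ) • (B + E)) * W =
        Wᴴ * (B - E) * W - (lam : ℂ) • (Wᴴ * (B + E) * W) := by
      rw [Matrix.mul_sub Wᴴ (B - E) ((lam : ℂ) • (B + E)), Matrix.sub_mul (Wᴴ * (B - E)),
        Matrix.mul_smul, Matrix.smul_mul]
    unfold NX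
    rw [← hN0, ← hM, h4, sub_add_cancel]
  refine ⟨W, c, lam, fun i => ‖v' i‖ ^ 2, hWW, hc, hc0, hl, fun i => by positivity, ?_, ?_⟩
  · unfold AX
    rw [← hM, ← hN, ← Matrix.add_mul, ← Matrix.mul_add, ← Matrix.smul_mul, ← Matrix.mul_smul]
    congr 2
    module
  · unfold DX
    rw [← hM, ← hN, ← Matrix.sub_mul, ← Matrix.mul_sub, ← Matrix.smul_mul, ← Matrix.mul_smul]
    congr 2
    module

/-! ### induction -/

/-- the statement supplied by the maximum principle, for one first system `(A₁, D₁)`: if the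
inequality holds on the boundary of the orthant then it holds on the orthant -/
def MaxStep (p : ℝ) (A₁ D₁ : Matrix ι ι ℂ) : Prop :=
  ∀ (n : ℕ) (be : Fin (n + 1) → ℝ) (lam : ℝ), (∀ i, 0 ≤ be i) → be 0 = 0 → 0 ≤ lam →
    (∀ y : Fin (n + 1) → ℝ, (∀ i, 0 ≤ y i) → (∃ i, y i = 0) →
      Ineq p A₁ D₁ (AX be lam y) (DX be lam y)) →
    ∀ y : Fin (n + 1) → ℝ, (∀ i, 0 ≤ y i) → Ineq p A₁ D₁ (AX be lam y) (DX be lam y)

/-- a weaker requirement: the boundary hypothesis is available for every `be` -/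
def WeakStep (p : ℝ) (A₁ D₁ : Matrix ι ι ℂ) : Prop :=
  ∀ (n : ℕ) (lam : ℝ), 0 ≤ lam →
    (∀ be : Fin (n + 1) → ℝ, (∀ i, 0 ≤ be i) → ∀ y : Fin (n + 1) → ℝ, (∀ i, 0 ≤ y i) →
      (∃ i, y i = 0) → Ineq p A₁ D₁ (AX be lam y) (DX be lam y)) →
    ∀ be : Fin (n + 1) → ℝ, (∀ i, 0 ≤ be i) → be 0 = 0 →
      ∀ y : Fin (n + 1) → ℝ, (∀ i, 0 ≤ y i) → Ineq p A₁ D₁ (AX be lam y) (DX be lam y)

theorem MaxStep.weak {p : ℝ} {A₁ D₁ : Matrix ι ι ℂ} (h : MaxStep p A₁ D₁) :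
    WeakStep p A₁ D₁ := fun n lam hl hf be hbe hbe0 y hy =>
  h n be lam hbe hbe0 hl (fun z hz hz0 => hf be hbe z hz hz0) y hy

/-- the weakest requirement: the boundary hypothesis is available for all `be` and `lam` -/
def AllStep (p : ℝ) (A₁ D₁ : Matrix ι ι ℂ) : Prop :=
  ∀ n : ℕ,
    (∀ lam : ℝ, 0 ≤ lam → ∀ be : Fin (n + 1) → ℝ, (∀ i, 0 ≤ be i) → ∀ y : Fin (n + 1) → ℝ,
      (∀ i, 0 ≤ y i) → (∃ i, y i = 0) → Ineq p A₁ D₁ (AX be lam y) (DX be lam y)) →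
    ∀ lam : ℝ, 0 ≤ lam → ∀ be : Fin (n + 1) → ℝ, (∀ i, 0 ≤ be i) → be 0 = 0 →
      ∀ y : Fin (n + 1) → ℝ, (∀ i, 0 ≤ y i) → Ineq p A₁ D₁ (AX be lam y) (DX be lam y)

/-- the same for `lam > 0` and `be_j > 0` (`j ≠ 0`) only -/
def StrictStep (p : ℝ) (A₁ D₁ : Matrix ι ι ℂ) : Prop :=
  ∀ n : ℕ,
    (∀ lam : ℝ, 0 ≤ lam → ∀ be : Fin (n + 1) → ℝ, (∀ i, 0 ≤ be i) → ∀ y : Fin (n + 1) → ℝ,
      (∀ i, 0 ≤ y i) → (∃ i, y i = 0) → Ineq p A₁ D₁ (AX be lam y) (DX be lam y)) →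
    ∀ lam : ℝ, 0 < lam → ∀ be : Fin (n + 1) → ℝ, be 0 = 0 → (∀ j, j ≠ 0 → 0 < be j) →
      ∀ y : Fin (n + 1) → ℝ, (∀ i, 0 ≤ y i) → Ineq p A₁ D₁ (AX be lam y) (DX be lam y)

theorem WeakStep.all {p : ℝ} {A₁ D₁ : Matrix ι ι ℂ} (h : WeakStep p A₁ D₁) :
    AllStep p A₁ D₁ := fun n hf lam hl be hbe hbe0 y hy =>
  h n lam hl (fun be hbe z hz hz0 => hf lam hl be hbe z hz hz0) be hbe hbe0 y hy

theorem cont_NX {m : ℕ} (y : Fin m → ℝ) :
    Continuous fun q : (Fin m → ℝ) × ℝ => NX q.1 q.2 y := by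
  have h1 : Continuous fun q : (Fin m → ℝ) × ℝ =>
      (Matrix.diagonal fun i => ((q.1 i : ℝ) : ℂ) : Matrix (Fin m) (Fin m) ℂ) := by
    have h2 : Continuous fun q : (Fin m → ℝ) × ℝ => fun i : Fin m => ((q.1 i : ℝ) : ℂ) :=
      continuous_pi fun i =>
        Complex.continuous_ofReal.comp ((continuous_apply i).comp continuous_fst)
    exact h2.matrix_diagonal
  have h3 : Continuous fun q : (Fin m → ℝ) × ℝ => ((q.2 : ℝ) : ℂ) • MX y := by
    have h4 : Continuous fun q : (Fin m → ℝ) × ℝ => ((q.2 : ℝ) : ℂ) :=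
      Complex.continuous_ofReal.comp continuous_snd
    exact h4.smul continuous_const
  exact h1.add h3

theorem tendsto_AX {m : ℕ} {be : ℕ → Fin m → ℝ} {lam : ℕ → ℝ} {be₀ : Fin m → ℝ} {lam₀ : ℝ}
    (hb : Tendsto be atTop (𝓝 be₀)) (hl : Tendsto lam atTop (𝓝 lam₀)) (y : Fin m → ℝ) :
    Tendsto (fun k => AX (be k) (lam k) y) atTop (𝓝 (AX be₀ lam₀ y)) := by
  have hc : Continuous fun q : (Fin m → ℝ) × ℝ => AX q.1 q.2 y := by
    unfold AX
    exact (continuous_const.add (cont_NX y)).const_smul (1 / 2 : ℂ)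
  have ht : Tendsto (fun k => (be k, lam k)) atTop (𝓝 (be₀, lam₀)) := hb.prodMk_nhds hl
  have h2 := (hc.tendsto (be₀, lam₀)).comp ht
  simp only [Function.comp_def] at h2
  exact h2

theorem tendsto_DX {m : ℕ} {be : ℕ → Fin m → ℝ} {lam : ℕ → ℝ} {be₀ : Fin m → ℝ} {lam₀ : ℝ}
    (hb : Tendsto be atTop (𝓝 be₀)) (hl : Tendsto lam atTop (𝓝 lam₀)) (y : Fin m → ℝ) :
    Tendsto (fun k => DX (be k) (lam k) y) atTop (𝓝 (DX be₀ lam₀ y)) := by
  have hc : Continuous fun q : (Fin m → ℝ) × ℝ => DX q.1 q.2 y := by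
    unfold DX
    exact (continuous_const.sub (cont_NX y)).const_smul (1 / 2 : ℂ)
  have ht : Tendsto (fun k => (be k, lam k)) atTop (𝓝 (be₀, lam₀)) := hb.prodMk_nhds hl
  have h2 := (hc.tendsto (be₀, lam₀)).comp ht
  simp only [Function.comp_def] at h2
  exact h2

/-- limits in the second pair -/
theorem Ineq.lim {p : ℝ} (hp : 0 < p) {A₁ D₁ : Matrix ι ι ℂ} (h₁ : IsPsdPair A₁ D₁)
    {A D : ℕ → Matrix κ κ ℂ} {A₀ D₀ : Matrix κ κ ℂ}
    (h : ∀ j, IsPsdPair (A j) (D j)) (h₀ : IsPsdPair A₀ D₀) (tA : Tendsto A atTop (𝓝 A₀))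
    (tD : Tendsto D atTop (𝓝 D₀)) (hq : ∀ j, Ineq p A₁ D₁ (A j) (D j)) :
    Ineq p A₁ D₁ A₀ D₀ := by
  unfold Ineq
  exact le_of_tendsto_of_tendsto' ((tendsto_G_seq hp (fun j => (h j).pos.1)
    (fun j => (h j).herm) h₀.pos.1 h₀.herm tA tD).const_mul (G p A₁ D₁))
    ((tendsto_G_seq hp (fun j => hk' h₁.pos.1 (h j).pos.1) (fun j => hk' h₁.herm (h j).herm)
      (hk' h₁.pos.1 h₀.pos.1) (hk' h₁.herm h₀.herm) (tendsto_kron tA)
      (tendsto_kron tD)).const_mul (2 ^ (p - 1) - 1)) hq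

theorem StrictStep.all {p : ℝ} (hp : 0 < p) {A₁ D₁ : Matrix ι ι ℂ} (h₁ : IsPsdPair A₁ D₁)
    (h : StrictStep p A₁ D₁) : AllStep p A₁ D₁ := by
  intro n hf lam hl be hbe hbe0 y hy
  have tl : Tendsto (fun k => lam + eps k) atTop (𝓝 lam) := by
    simpa using tendsto_eps.const_add lam
  have tb : Tendsto (fun (k : ℕ) (i : Fin (n + 1)) => if i = 0 then (0 : ℝ) else be i + eps k)
      atTop (𝓝 be) := by
    refine tendsto_pi_nhds.2 fun i => ?_
    by_cases hi : i = 0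
    · subst hi
      simp only [if_true]
      rw [hbe0]
      exact tendsto_const_nhds
    · simp only [if_neg hi]
      simpa using tendsto_eps.const_add (be i)
  have hb : ∀ (k : ℕ) (i : Fin (n + 1)), 0 ≤ (if i = 0 then (0 : ℝ) else be i + eps k) := by
    intro k i
    by_cases hi : i = 0
    · simp [hi]
    · simp only [if_neg hi]
      linarith [hbe i, eps_pos k]
  refine Ineq.lim hp h₁ (fun k => X_pair (y := y) (hb k) (by linarith [eps_pos k]))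
    (X_pair hbe hl) (tendsto_AX tb tl y) (tendsto_DX tb tl y) fun k => ?_
  refine h n hf (lam + eps k) (by linarith [eps_pos k]) _ (by simp) ?_ y hy
  intro j hj
  simp only [if_neg hj]
  linarith [hbe j, eps_pos k]

theorem eq_zero_of_rank {M : Matrix b b ℂ} (h : M.rank ≤ 0) : M = 0 := by
  rw [Nat.le_zero] at h
  by_contra hM
  have h1 : (Matrix.toLin' M) ≠ 0 := by
    intro h2
    apply hM
    have := congrArg LinearMap.toMatrix' h2
    simpa using this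
  apply h1
  rw [← LinearMap.range_eq_bot, ← Submodule.finrank_eq_zero (R := ℂ)]
  exact h

theorem rkOne_all {p : ℝ} (hp : 0 < p) {A₁ D₁ : Matrix ι ι ℂ} (h₁ : IsPsdPair A₁ D₁)
    (hs : AllStep p A₁ D₁) : ∀ n : ℕ, RkOne p A₁ D₁ n := by
  intro n
  induction n with
  | zero =>
    intro κ _ _ A D h hr hn
    have hA := eq_zero_of_rank hn
    have hD : D = 0 := by
      have := fix_of_pair h (Q := 0) (by rw [hA, Matrix.zero_mul])
      rw [← this, Matrix.zero_mul]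
    exact ineq_zero hp h₁ h (by rw [hA, hD, add_zero])
  | succ n ih =>
    intro κ _ _ A D h hr hn
    obtain ⟨V, hV⟩ := exists_support h.pos hn
    refine Ineq.compress hp h₁ h hV ?_
    have hp2 := pair_conj h V
    have hr2 : (Vᴴ * A * V + Vᴴ * D * V).rank ≤ 1 := by
      have e : Vᴴ * A * V + Vᴴ * D * V = Vᴴ * (A + D) * V := by
        rw [Matrix.mul_add, Matrix.add_mul]
      rw [e]
      exact (Matrix.rank_mul_le_left _ _).trans ((Matrix.rank_mul_le_right _ _).trans hr)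
    by_cases h0 : Vᴴ * A * V + Vᴴ * D * V = 0
    · exact ineq_zero hp h₁ hp2 h0
    obtain ⟨W, be, lam, y, hW, hbe, hbe0, hl, hy, e1, e2⟩ := exists_normal hp2 hr2 h0
    refine Ineq.compress hp h₁ hp2 (V := W) (by rw [hW, Matrix.one_mul]) ?_
    rw [e1, e2]
    exact hs n (fun lam' hl' be' hbe' z hz hz0 => by
      obtain ⟨j, hj⟩ := hz0
      exact ineq_face hp h₁ ih hbe' hl' hj) lam hl be hbe hbe0 y hy

/-- one of the two matrices of the second pair has rank at most one -/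
theorem ineq_pure {p : ℝ} (hp : 0 < p) {A₁ D₁ : Matrix ι ι ℂ} (h₁ : IsPsdPair A₁ D₁)
    (hs : AllStep p A₁ D₁) {A D : Matrix κ κ ℂ} (h : IsPsdPair A D)
    (hr : (A + D).rank ≤ 1 ∨ (A - D).rank ≤ 1) : Ineq p A₁ D₁ A D := by
  rcases hr with hr | hr
  · exact rkOne_all hp h₁ hs (Fintype.card κ) κ A D h hr (Matrix.rank_le_card_width _)
  · apply Ineq.neg
    refine rkOne_all hp h₁ hs (Fintype.card κ) κ A (-D) (pair_neg h) ?_
      (Matrix.rank_le_card_width _)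
    rwa [← sub_eq_add_neg]

/-- the limit in the first system: it is enough to know the inequality for strict pairs -/
theorem ineq_lim {p : ℝ} (hp : 0 < p) {A D : Matrix κ κ ℂ} (h : IsPsdPair A D)
    (hs : ∀ (ι : Type) [Fintype ι] [DecidableEq ι] (A₁ D₁ : Matrix ι ι ℂ),
      (A₁ + D₁).PosDef → (A₁ - D₁).PosDef → IsPsdPair A₁ D₁ → Ineq p A₁ D₁ A D)
    {A₁ D₁ : Matrix ι ι ℂ} (h₁ : IsPsdPair A₁ D₁) : Ineq p A₁ D₁ A D := by
  apply Ineq.swap
  have key : ∀ j, Ineq p A D (sf A₁ j) D₁ := fun j =>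
    (hs ι (sf A₁ j) D₁ (sf_add_posDef h₁ j) (sf_sub_posDef h₁ j) (sf_pair h₁ j)).swap
  unfold Ineq
  refine le_of_tendsto_of_tendsto' ((tendsto_G_seq hp (fun j => (sf_pair h₁ j).pos.1)
    (fun j => (sf_pair h₁ j).herm) h₁.pos.1 h₁.herm (tendsto_sf A₁)
      tendsto_const_nhds).const_mul (G p A D))
    ((tendsto_G_seq hp (fun j => hk' h.pos.1 (sf_pair h₁ j).pos.1)
      (fun j => hk' h.herm (sf_pair h₁ j).herm) (hk' h.pos.1 h₁.pos.1) (hk' h.herm h₁.herm)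
      (tendsto_kron (tendsto_sf A₁)) (tendsto_kron tendsto_const_nhds)).const_mul
        (2 ^ (p - 1) - 1)) key

/-- `ineq_pure` with the maximum principle for strict first pairs only -/
theorem ineq_pure_strict {p : ℝ} (hp : 0 < p)
    (hs : ∀ (ι : Type) [Fintype ι] [DecidableEq ι] (A₁ D₁ : Matrix ι ι ℂ),
      (A₁ + D₁).PosDef → (A₁ - D₁).PosDef → StrictStep p A₁ D₁)
    {A₁ D₁ : Matrix ι ι ℂ} (h₁ : IsPsdPair A₁ D₁) {A D : Matrix κ κ ℂ} (h : IsPsdPair A D)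
    (hr : (A + D).rank ≤ 1 ∨ (A - D).rank ≤ 1) : Ineq p A₁ D₁ A D :=
  ineq_lim hp h (fun ι _ _ A₁ D₁ ha hb h₁ =>
    ineq_pure hp h₁ ((hs ι A₁ D₁ ha hb).all hp h₁) h hr) h₁

/-! ### states -/

/-- at least one of the two matrices has rank at most one -/
def PureQ : MP2 := fun _ _ _ S R => S.rank ≤ 1 ∨ R.rank ≤ 1

/-- flagged mixtures of pairs containing a pure state: orthogonal projections `P i` summing to the
identity and commuting with both states, such that for every `i` one of the two blocks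
`P i (σ 0)`, `P i (σ 1)` has rank at most one -/
def PureBlocks (σ : Fin 2 → Matrix b b ℂ) : Prop :=
  ∃ (m : ℕ) (P : Fin m → Matrix b b ℂ), (∀ i, (P i).IsHermitian) ∧ (∀ i, P i * P i = P i) ∧
    ∑ i, P i = 1 ∧ (∀ i x, P i * σ x = σ x * P i) ∧ ∀ i, ∃ x, (P i * σ x).rank ≤ 1

theorem flagQ_of_blocks {σ : Fin 2 → Matrix b b ℂ} (h : PureBlocks σ) :
    FlagQ PureQ (σ 0) (σ 1) := by
  obtain ⟨m, P, h1, h2, h3, h4, h5⟩ := h
  refine ⟨m, P, h1, h2, h3, fun i => h4 i 0, fun i => h4 i 1, fun i => ?_⟩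
  obtain ⟨x, hx⟩ := h5 i
  fin_cases x
  · exact Or.inl hx
  · exact Or.inr hx

/-- a pair of states one of which has rank at most one (a pure state) -/
theorem pureBlocks_of_rank {σ : Fin 2 → Matrix b b ℂ} (h : ∃ x, (σ x).rank ≤ 1) :
    PureBlocks σ := by
  obtain ⟨x, hx⟩ := h
  refine ⟨1, fun _ => 1, fun _ => Matrix.isHermitian_one, fun _ => Matrix.one_mul _, by simp,
    fun _ x => by rw [Matrix.one_mul, Matrix.mul_one], fun _ => ⟨x, ?_⟩⟩
  rwa [Matrix.one_mul]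

theorem pureQ_conj (S R X : Matrix b b ℂ) (h : PureQ b S R) :
    PureQ b (X * S * X) (X * R * X) :=
  h.imp (fun h => (Matrix.rank_mul_le_left _ _).trans ((Matrix.rank_mul_le_right _ _).trans h))
    (fun h => (Matrix.rank_mul_le_left _ _).trans ((Matrix.rank_mul_le_right _ _).trans h))

theorem flagQ_pure {σ : Fin 2 → Matrix b b ℂ} (h : ∀ x, IsDensity (σ x)) {α : ℝ} (h0 : 0 < α)
    (hf : PureBlocks σ) : FlagQ PureQ (Aop α σ + Dop α σ) (Aop α σ - Dop α σ) :=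
  flagQ_state h0 (fun S R X _ h => pureQ_conj S R X h) h (flagQ_of_blocks hf)

/-- from the inequality for the operators to the states -/
theorem le_of_ineq {σ₁ : Fin 2 → Matrix ι ι ℂ} {σ₂ : Fin 2 → Matrix κ κ ℂ}
    (h₁ : ∀ x, IsDensity (σ₁ x)) (h₂ : ∀ x, IsDensity (σ₂ x)) {α : ℝ} (h0 : 0 < α) (h1 : α ≠ 1)
    (hf : Ineq α (Aop α σ₁) (Dop α σ₁) (Aop α σ₂) (Dop α σ₂)) :
    Hsum α σ₁ σ₂ ≤ Fval α σ₁ σ₂ := by
  have p₁ := psdPair_state h₁ h0
  have p₂ := psdPair_state h₂ h0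
  apply Hsum_le_Fval h₁ h₂ h0 h1
  rw [p₁.Gfun_eq h0, p₂.Gfun_eq h0, (p₁.kron p₂).Gfun_eq h0]
  exact hf

/-- ONE-SIDED: one system is a flagged mixture of pairs containing a pure state, the other system is
arbitrary -/
theorem state_le_strict {σ₁ : Fin 2 → Matrix ι ι ℂ} {σ₂ : Fin 2 → Matrix κ κ ℂ}
    (h₁ : ∀ x, IsDensity (σ₁ x)) (h₂ : ∀ x, IsDensity (σ₂ x)) {α : ℝ} (h0 : 0 < α) (h1 : α ≠ 1)
    (hs : ∀ (ι : Type) [Fintype ι] [DecidableEq ι] (A₁ D₁ : Matrix ι ι ℂ),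
      (A₁ + D₁).PosDef → (A₁ - D₁).PosDef → StrictStep α A₁ D₁)
    (hf : PureBlocks σ₁ ∨ PureBlocks σ₂) : Hsum α σ₁ σ₂ ≤ Fval α σ₁ σ₂ := by
  refine le_of_ineq h₁ h₂ h0 h1 ?_
  have p₁ := psdPair_state h₁ h0
  have p₂ := psdPair_state h₂ h0
  rcases hf with hf | hf
  · apply Ineq.swap
    exact Ineq.flagQ h0 (Q := PureQ) p₂ (fun A D h hq => ineq_pure_strict h0 hs p₂ h hq) p₁
      (flagQ_pure h₁ h0 hf)
  · exact Ineq.flagQ h0 (Q := PureQ) p₁ (fun A D h hq => ineq_pure_strict h0 hs p₁ h hq) p₂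
      (flagQ_pure h₂ h0 hf)

/-- the same with `MaxStep` for all pairs -/
theorem state_le_one {σ₁ : Fin 2 → Matrix ι ι ℂ} {σ₂ : Fin 2 → Matrix κ κ ℂ}
    (h₁ : ∀ x, IsDensity (σ₁ x)) (h₂ : ∀ x, IsDensity (σ₂ x)) {α : ℝ} (h0 : 0 < α) (h1 : α ≠ 1)
    (hs : ∀ (ι : Type) [Fintype ι] [DecidableEq ι] (A₁ D₁ : Matrix ι ι ℂ), IsPsdPair A₁ D₁ →
      MaxStep α A₁ D₁)
    (hf : PureBlocks σ₁ ∨ PureBlocks σ₂) : Hsum α σ₁ σ₂ ≤ Fval α σ₁ σ₂ := by
  refine le_of_ineq h₁ h₂ h0 h1 ?_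
  have p₁ := psdPair_state h₁ h0
  have p₂ := psdPair_state h₂ h0
  rcases hf with hf | hf
  · apply Ineq.swap
    exact Ineq.flagQ h0 (Q := PureQ) p₂ (fun A D h hq => ineq_pure h0 p₂ (hs _ _ _ p₂).weak.all h hq) p₁
      (flagQ_pure h₁ h0 hf)
  · exact Ineq.flagQ h0 (Q := PureQ) p₁ (fun A D h hq => ineq_pure h0 p₁ (hs _ _ _ p₁).weak.all h hq) p₂
      (flagQ_pure h₂ h0 hf)

/-- rank-one first system: the limit in `A₁ - D₁` -/
theorem ineq_pure_two {p : ℝ} (hp : 0 < p)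
    (hs : ∀ (ι : Type) [Fintype ι] [DecidableEq ι] (A₁ D₁ : Matrix ι ι ℂ),
      (A₁ + D₁).PosSemidef → (A₁ + D₁).rank ≤ 1 → (A₁ - D₁).PosDef → StrictStep p A₁ D₁)
    {A₁ D₁ : Matrix ι ι ℂ} (h₁ : IsPsdPair A₁ D₁) (hr₁ : (A₁ + D₁).rank ≤ 1)
    {A D : Matrix κ κ ℂ} (h : IsPsdPair A D)
    (hr : (A + D).rank ≤ 1 ∨ (A - D).rank ≤ 1) : Ineq p A₁ D₁ A D := by
  obtain ⟨B, hB⟩ : ∃ B : ℕ → Matrix ι ι ℂ,
      B = fun j => A₁ + ((1 / 2 * eps j : ℝ) : ℂ) • (1 : Matrix ι ι ℂ) := ⟨_, rfl⟩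
  obtain ⟨E, hE⟩ : ∃ E : ℕ → Matrix ι ι ℂ,
      E = fun j => D₁ - ((1 / 2 * eps j : ℝ) : ℂ) • (1 : Matrix ι ι ℂ) := ⟨_, rfl⟩
  have hadd : ∀ j, B j + E j = A₁ + D₁ := by
    intro j
    rw [hB, hE]
    show A₁ + _ + (D₁ - _) = A₁ + D₁
    module
  have hsub : ∀ j, B j - E j = (A₁ - D₁) + ((1 * eps j : ℝ) : ℂ) • (1 : Matrix ι ι ℂ) := by
    intro j
    rw [hB, hE]
    show A₁ + _ - (D₁ - _) = _
    push_cast
    module
  have hpd : ∀ j, (B j - E j).PosDef := by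
    intro j
    rw [hsub]
    exact pd_shift h₁.sub (by have := eps_pos j; positivity)
  have hpair : ∀ j, IsPsdPair (B j) (E j) := by
    intro j
    refine ⟨?_, (hpd j).posSemidef, by rw [hadd]; exact h₁.add⟩
    rw [hB]
    exact psd_shift h₁.pos (by have := eps_pos j; positivity)
  have tB : Tendsto B atTop (𝓝 A₁) := by
    rw [hB]
    exact tendsto_sh A₁ (1 / 2)
  have tE : Tendsto E atTop (𝓝 D₁) := by
    have e : E = fun j => D₁ + ((-(1 / 2) * eps j : ℝ) : ℂ) • (1 : Matrix ι ι ℂ) := by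
      rw [hE]
      funext j
      push_cast
      module
    rw [e]
    exact tendsto_sh D₁ (-(1 / 2))
  refine (Ineq.lim hp h hpair h₁ tB tE fun j => ?_).swap
  refine (ineq_pure hp (hpair j) ((hs ι (B j) (E j) ?_ ?_ (hpd j)).all hp (hpair j)) h hr).swap
  · rw [hadd]; exact h₁.add
  · rw [hadd]; exact hr₁

/-- TWO-SIDED: both systems are flagged mixtures of pairs containing a pure state; the maximum
principle is used only for first systems with `A₁ + D₁` of rank at most one, `A₁ - D₁ > 0` -/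
theorem state_le_two {σ₁ : Fin 2 → Matrix ι ι ℂ} {σ₂ : Fin 2 → Matrix κ κ ℂ}
    (h₁ : ∀ x, IsDensity (σ₁ x)) (h₂ : ∀ x, IsDensity (σ₂ x)) {α : ℝ} (h0 : 0 < α) (h1 : α ≠ 1)
    (hs : ∀ (ι : Type) [Fintype ι] [DecidableEq ι] (A₁ D₁ : Matrix ι ι ℂ),
      (A₁ + D₁).PosSemidef → (A₁ + D₁).rank ≤ 1 → (A₁ - D₁).PosDef → StrictStep α A₁ D₁)
    (hf : PureBlocks σ₁) (hf' : PureBlocks σ₂) : Hsum α σ₁ σ₂ ≤ Fval α σ₁ σ₂ := by
  refine le_of_ineq h₁ h₂ h0 h1 ?_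
  have p₁ := psdPair_state h₁ h0
  have p₂ := psdPair_state h₂ h0
  apply Ineq.swap
  refine Ineq.flagQ h0 (Q := PureQ) p₂ (fun A D h hq => ?_) p₁ (flagQ_pure h₁ h0 hf)
  have key : ∀ (A D : Matrix ι ι ℂ), IsPsdPair A D → (A + D).rank ≤ 1 →
      Ineq α A D (Aop α σ₂) (Dop α σ₂) := fun A D h hr =>
    Ineq.flagQ h0 (Q := PureQ) h (fun A' D' h' hq' => ineq_pure_two h0 hs h hr h' hq') p₂
      (flagQ_pure h₂ h0 hf')
  rcases hq with hq | hq
  · exact (key A D h hq).swap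
  · apply Ineq.neg
    refine (key A (-D) (pair_neg h) ?_).swap
    rwa [← sub_eq_add_neg]

/-! ### the union with the landed class (blocks of joint rank at most two) -/

/-- a block of joint rank at most two, or a block containing a matrix of rank at most one -/
def UnQ : MP2 := fun κ _ _ S R => RkQ 2 κ S R ∨ PureQ κ S R

theorem flagQ_un {σ : Fin 2 → Matrix b b ℂ} (h : ∀ x, IsDensity (σ x)) {α : ℝ} (h0 : 0 < α)
    (hf : PureOrRankTwoBlocks σ) : FlagQ UnQ (Aop α σ + Dop α σ) (Aop α σ - Dop α σ) := by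
  refine flagQ_state h0 (fun S R X hX h => h.imp (rkQ_conj 2 S R X hX)
    (pureQ_conj S R X)) h ?_
  obtain ⟨m, P, h1, h2, h3, h4, h5⟩ := hf
  refine ⟨m, P, h1, h2, h3, fun i => h4 i 0, fun i => h4 i 1, fun i => ?_⟩
  rcases h5 i with h6 | ⟨x, hx⟩
  · refine Or.inl ?_
    unfold RkQ
    rw [← Matrix.mul_add]
    exact h6
  · refine Or.inr ?_
    fin_cases x
    · exact Or.inl hx
    · exact Or.inr hx

theorem ineq_un {p : ℝ} (hp : 0 < p) (hc : StrictCore p)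
    (hs : ∀ (ι : Type) [Fintype ι] [DecidableEq ι] (A₁ D₁ : Matrix ι ι ℂ),
      (A₁ + D₁).PosDef → (A₁ - D₁).PosDef → StrictStep p A₁ D₁)
    {A₁ D₁ : Matrix ι ι ℂ} (h₁ : IsPsdPair A₁ D₁) {A D : Matrix κ κ ℂ} (h : IsPsdPair A D)
    (hq : UnQ κ (A + D) (A - D)) : Ineq p A₁ D₁ A D := by
  rcases hq with hq | hq
  · refine q1le_of_rank hp (fun A₂ D₂ h₂ => hc.q1le hp A₂ D₂ h₂) h (k := 2) ?_ ι A₁ D₁ h₁
    unfold RkQ at hq
    have e : A + D + (A - D) = ((2 : ℂ) • (1 : Matrix κ κ ℂ)) * A := by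
      rw [Matrix.smul_mul, Matrix.one_mul]; module
    have e2 : A = ((1 / 2 : ℂ) • (1 : Matrix κ κ ℂ)) * (A + D + (A - D)) := by
      rw [e, ← Matrix.mul_assoc, Matrix.smul_mul, Matrix.one_mul, smul_smul]
      norm_num
    rw [e2]
    exact (Matrix.rank_mul_le_right _ _).trans hq
  · exact ineq_pure_strict hp hs h₁ h hq

/-- the state-level theorem for the union of the two classes of blocks -/
theorem state_le_un {σ₁ : Fin 2 → Matrix ι ι ℂ} {σ₂ : Fin 2 → Matrix κ κ ℂ}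
    (h₁ : ∀ x, IsDensity (σ₁ x)) (h₂ : ∀ x, IsDensity (σ₂ x)) {α : ℝ} (h0 : 0 < α) (h1 : α ≠ 1)
    (hc : StrictCore α)
    (hs : ∀ (ι : Type) [Fintype ι] [DecidableEq ι] (A₁ D₁ : Matrix ι ι ℂ),
      (A₁ + D₁).PosDef → (A₁ - D₁).PosDef → StrictStep α A₁ D₁)
    (hf : PureOrRankTwoBlocks σ₁ ∨ PureOrRankTwoBlocks σ₂) : Hsum α σ₁ σ₂ ≤ Fval α σ₁ σ₂ := by
  refine le_of_ineq h₁ h₂ h0 h1 ?_
  have p₁ := psdPair_state h₁ h0
  have p₂ := psdPair_state h₂ h0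
  rcases hf with hf | hf
  · apply Ineq.swap
    exact Ineq.flagQ h0 (Q := UnQ) p₂ (fun A D h hq => ineq_un h0 hc hs p₂ h hq) p₁
      (flagQ_un h₁ h0 hf)
  · exact Ineq.flagQ h0 (Q := UnQ) p₁ (fun A D h hq => ineq_un h0 hc hs p₁ h hq) p₂
      (flagQ_un h₂ h0 hf)

end Pool.Agent.OP
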