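import Pool.Agent.Lib_helper25.OPS.States

/-!
# States differing by a pure state: `M' = mu N' + phi phi*`

Normal form, faces, induction, states, for pairs `(M', N')` such that `M' - mu N'` is positive
semidefinite of rank at most one for some `mu ≥ 0`.
-/

set_option autoImplicit false
set_option linter.unusedSectionVars false

open scoped BigOperators ComplexOrder Kronecker MatrixOrder Topology
open MeasureTheory Set Matrix Filter

namespace Pool.Agent.OP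

open Pool.Agent.RC Pool.Agent.LDK Pool.Agent.QS
open Pool.Agent.Lib_helper98.Renyi Pool.Agent.Lib_helper59.RCT

variable {ι κ b : Type} [Fintype ι] [DecidableEq ι] [Fintype κ] [DecidableEq κ]
  [Fintype b] [DecidableEq b]

/-- `phi phi^T + mu diag be` -/
noncomputable def MY {m : ℕ} (mu : ℝ) (be y : Fin m → ℝ) : Matrix (Fin m) (Fin m) ℂ :=
  MX y + (mu : ℂ) • Matrix.diagonal (fun i => (be i : ℂ))

noncomputable def AY {m : ℕ} (mu : ℝ) (be : Fin m → ℝ) (lam : ℝ) (y : Fin m → ℝ) :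
    Matrix (Fin m) (Fin m) ℂ := (1 / 2 : ℂ) • (MY mu be y + NX be lam y)

noncomputable def DY {m : ℕ} (mu : ℝ) (be : Fin m → ℝ) (lam : ℝ) (y : Fin m → ℝ) :
    Matrix (Fin m) (Fin m) ℂ := (1 / 2 : ℂ) • (MY mu be y - NX be lam y)

section normal

variable {m : ℕ} {mu : ℝ} {be : Fin m → ℝ} {lam : ℝ} {y : Fin m → ℝ} {j : Fin m}

theorem AY_add_DY : AY mu be lam y + DY mu be lam y = MY mu be y := by
  unfold AY DY; module

theorem AY_sub_DY : AY mu be lam y - DY mu be lam y = NX be lam y := by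
  unfold AY DY; module

theorem MY_psd (hbe : ∀ i, 0 ≤ be i) (hm : 0 ≤ mu) : (MY mu be y).PosSemidef := by
  refine Matrix.PosSemidef.add MX_psd ?_
  have h : (Matrix.diagonal (fun i => (be i : ℂ)) : Matrix (Fin m) (Fin m) ℂ).PosSemidef := by
    refine Matrix.PosSemidef.diagonal fun i => ?_
    simpa using hbe i
  exact h.smul (by exact_mod_cast hm)

theorem Y_pair (hbe : ∀ i, 0 ≤ be i) (hl : 0 ≤ lam) (hm : 0 ≤ mu) :
    IsPsdPair (AY mu be lam y) (DY mu be lam y) where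
  pos := by
    have h := (MY_psd (y := y) hbe hm).add (NX_psd (y := y) hbe hl)
    exact posSemidef_half_smul h
  sub := by rw [AY_sub_DY]; exact NX_psd hbe hl
  add := by rw [AY_add_DY]; exact MY_psd hbe hm

theorem MY_sub : MY mu be y - (mu : ℂ) • NX be lam y = ((1 - mu * lam : ℝ) : ℂ) • MX y := by
  unfold MY NX
  push_cast
  module

theorem EJ_MY (hj : y j = 0) : EJ j * MY mu be y = MY mu be y * EJ j := by
  unfold MY
  rw [Matrix.mul_add, Matrix.add_mul, Matrix.mul_smul, Matrix.smul_mul, EJ_MX hj, MX_EJ hj]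
  unfold EJ
  rw [Matrix.diagonal_mul_diagonal, Matrix.diagonal_mul_diagonal]
  congr 3
  funext i
  ring

theorem EJ_AY (hj : y j = 0) : EJ j * AY mu be lam y = AY mu be lam y * EJ j := by
  unfold AY
  rw [Matrix.mul_smul, Matrix.smul_mul, Matrix.mul_add, Matrix.add_mul, EJ_MY hj, EJ_NX hj]

theorem EJ_DY (hj : y j = 0) : EJ j * DY mu be lam y = DY mu be lam y * EJ j := by
  unfold DY
  rw [Matrix.mul_smul, Matrix.smul_mul, Matrix.mul_sub, Matrix.sub_mul, EJ_MY hj, EJ_NX hj]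

theorem rank_EJ : (EJ j).rank ≤ 1 := by
  unfold EJ
  rw [Matrix.rank_diagonal]
  have h1 : Fintype.card {i : Fin m // (if i = j then (1 : ℂ) else 0) ≠ 0} =
      Fintype.card {i : Fin m // i = j} := by
    refine Fintype.card_congr (Equiv.subtypeEquivRight fun i => ?_)
    by_cases h : i = j <;> simp [h]
  rw [h1]
  simp

end normal

/-! ### faces -/

/-- the inequality for pairs with `M - mu N` psd of rank at most one, joint rank at most `n` -/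
def RkDiff (p : ℝ) (A₁ D₁ : Matrix ι ι ℂ) (n : ℕ) : Prop :=
  ∀ (mu : ℝ), 0 ≤ mu → ∀ (κ : Type) [Fintype κ] [DecidableEq κ] (A D : Matrix κ κ ℂ),
    IsPsdPair A D → ((A + D) - (mu : ℂ) • (A - D)).PosSemidef →
    ((A + D) - (mu : ℂ) • (A - D)).rank ≤ 1 → A.rank ≤ n → Ineq p A₁ D₁ A D

/-- joint rank at most two -/
theorem ineq_rank_two {p : ℝ} (hp : 0 < p) (hc : StrictCore p) {A₁ D₁ : Matrix ι ι ℂ}
    (h₁ : IsPsdPair A₁ D₁) {A D : Matrix κ κ ℂ} (h : IsPsdPair A D) (hr : A.rank ≤ 2) :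
    Ineq p A₁ D₁ A D :=
  q1le_of_rank hp (fun A₂ D₂ h₂ => hc.q1le hp A₂ D₂ h₂) h hr ι A₁ D₁ h₁

/-- the face `y_j = 0` -/
theorem ineq_face2 {p : ℝ} (hp : 0 < p) (hc : StrictCore p) {A₁ D₁ : Matrix ι ι ℂ}
    (h₁ : IsPsdPair A₁ D₁) {n : ℕ}
    (hn : RkDiff p A₁ D₁ n) {mu : ℝ} (hm : 0 ≤ mu) {be : Fin (n + 1) → ℝ}
    (hbe : ∀ i, 0 ≤ be i) {lam : ℝ} (hl : 0 ≤ lam) (hml : mu * lam ≤ 1)
    {y : Fin (n + 1) → ℝ} {j : Fin (n + 1)} (hj : y j = 0) :
    Ineq p A₁ D₁ (AY mu be lam y) (DY mu be lam y) := by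
  have hX := Y_pair (y := y) hbe hl hm
  have cA : ∀ i : Fin 2, (![EJ j, 1 - EJ j] i) * AY mu be lam y =
      AY mu be lam y * (![EJ j, 1 - EJ j] i) := by
    intro i
    fin_cases i
    · exact EJ_AY hj
    · show (1 - EJ j) * _ = _ * (1 - EJ j)
      rw [Matrix.sub_mul, Matrix.mul_sub, Matrix.one_mul, Matrix.mul_one, EJ_AY hj]
  have cD : ∀ i : Fin 2, (![EJ j, 1 - EJ j] i) * DY mu be lam y =
      DY mu be lam y * (![EJ j, 1 - EJ j] i) := by
    intro i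
    fin_cases i
    · exact EJ_DY hj
    · show (1 - EJ j) * _ = _ * (1 - EJ j)
      rw [Matrix.sub_mul, Matrix.mul_sub, Matrix.one_mul, Matrix.mul_one, EJ_DY hj]
  have hH : ∀ i : Fin 2, (![EJ j, 1 - EJ j] i).IsHermitian := by
    intro i
    fin_cases i
    · exact EJ_herm
    · exact Matrix.isHermitian_one.sub EJ_herm
  have hI : ∀ i : Fin 2, (![EJ j, 1 - EJ j] i) * (![EJ j, 1 - EJ j] i) =
      ![EJ j, 1 - EJ j] i := by
    intro i
    fin_cases i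
    · exact EJ_idem
    · show (1 - EJ j) * (1 - EJ j) = 1 - EJ j
      rw [Matrix.sub_mul, Matrix.mul_sub, Matrix.mul_sub, Matrix.one_mul, Matrix.one_mul,
        Matrix.mul_one, EJ_idem]
      abel
  refine Ineq.flag hp h₁ hX (P := ![EJ j, 1 - EJ j]) hH hI ?_ cA cD ?_
  · rw [Fin.sum_univ_two]
    show EJ j + (1 - EJ j) = 1
    abel
  · intro i
    have hpair := IsPsdPair.flag hX (hH i) (hI i) (cA i) (cD i)
    fin_cases i
    · refine ineq_rank_two hp hc h₁ hpair ?_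
      exact ((Matrix.rank_mul_le_left _ _).trans rank_EJ).trans (by norm_num)
    · have e : ((![EJ j, 1 - EJ j] 1) * AY mu be lam y + (![EJ j, 1 - EJ j] 1) * DY mu be lam y) -
          (mu : ℂ) • ((![EJ j, 1 - EJ j] 1) * AY mu be lam y -
            (![EJ j, 1 - EJ j] 1) * DY mu be lam y) = ((1 - mu * lam : ℝ) : ℂ) • MX y := by
        rw [← Matrix.mul_add, ← Matrix.mul_sub, AY_add_DY, AY_sub_DY, ← Matrix.mul_smul,
          ← Matrix.mul_sub, MY_sub]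
        show (1 - EJ j) * _ = _
        rw [Matrix.mul_smul, Matrix.sub_mul, Matrix.one_mul, EJ_MX hj, sub_zero]
      refine hn mu hm _ _ _ hpair ?_ ?_ ?_
      · refine Eq.subst (motive := fun X => X.PosSemidef) e.symm ?_
        exact MX_psd.smul (by exact_mod_cast (by linarith : (0 : ℝ) ≤ 1 - mu * lam))
      · refine Eq.subst (motive := fun X => X.rank ≤ 1) e.symm ?_
        have e2 : ((1 - mu * lam : ℝ) : ℂ) • MX y =
            (((1 - mu * lam : ℝ) : ℂ) • (1 : Matrix (Fin (n + 1)) (Fin (n + 1)) ℂ)) * MX y := by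
          rw [Matrix.smul_mul, Matrix.one_mul]
        rw [e2]
        exact (Matrix.rank_mul_le_right _ _).trans MX_rank
      · exact (Matrix.rank_mul_le_left _ _).trans (rank_compl j)

/-! ### normal form -/

theorem MX_smul {m : ℕ} {c : ℝ} (hc : 0 ≤ c) (y : Fin m → ℝ) :
    MX (fun i => c * y i) = (c : ℂ) • MX y := by
  ext i j
  simp only [MX, Matrix.of_apply, Matrix.smul_apply, smul_eq_mul]
  rw [← Complex.ofReal_mul]
  congr 1
  rw [Real.sqrt_mul hc, Real.sqrt_mul hc]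
  have := Real.mul_self_sqrt hc
  linear_combination (Real.sqrt (y i) * Real.sqrt (y j)) * this

/-- simultaneous form: `v v*` and `N` -/
theorem exists_normal0 {n : ℕ} {K N : Matrix (Fin (n + 1)) (Fin (n + 1)) ℂ}
    (hK : K.PosSemidef) (hN : N.PosSemidef) (hr : K.rank ≤ 1) (h0 : K ≠ 0) :
    ∃ (W : Matrix (Fin (n + 1)) (Fin (n + 1)) ℂ) (be : Fin (n + 1) → ℝ) (lam : ℝ)
      (y : Fin (n + 1) → ℝ), W * Wᴴ = 1 ∧ (∀ i, 0 ≤ be i) ∧ be 0 = 0 ∧ 0 ≤ lam ∧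
      (∀ i, 0 ≤ y i) ∧ Wᴴ * K * W = MX y ∧ Wᴴ * N * W = NX be lam y := by
  have hp : IsPsdPair ((1 / 2 : ℂ) • (K + N)) ((1 / 2 : ℂ) • (K - N)) := by
    refine ⟨posSemidef_half_smul (hK.add hN), ?_, ?_⟩
    · have e : (1 / 2 : ℂ) • (K + N) - (1 / 2 : ℂ) • (K - N) = N := by module
      rw [e]; exact hN
    · have e : (1 / 2 : ℂ) • (K + N) + (1 / 2 : ℂ) • (K - N) = K := by module
      rw [e]; exact hK
  have e1 : (1 / 2 : ℂ) • (K + N) + (1 / 2 : ℂ) • (K - N) = K := by module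
  obtain ⟨W, be, lam, y, hW, hbe, hbe0, hl, hy, h1, h2⟩ :=
    exists_normal hp (by rw [e1]; exact hr) (by rw [e1]; exact h0)
  refine ⟨W, be, lam, y, hW, hbe, hbe0, hl, hy, ?_, ?_⟩
  · rw [← AX_add_DX (be := be) (lam := lam), ← h1, ← h2, ← Matrix.add_mul, ← Matrix.mul_add, e1]
  · have e2 : (1 / 2 : ℂ) • (K + N) - (1 / 2 : ℂ) • (K - N) = N := by module
    rw [← AX_sub_DX (be := be) (lam := lam), ← h1, ← h2, ← Matrix.sub_mul, ← Matrix.mul_sub, e2]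

theorem exists_normal2 {n : ℕ} {B E : Matrix (Fin (n + 1)) (Fin (n + 1)) ℂ} (h : IsPsdPair B E)
    {mu : ℝ} (hm : 0 ≤ mu) (hK : ((B + E) - (mu : ℂ) • (B - E)).PosSemidef)
    (hr : ((B + E) - (mu : ℂ) • (B - E)).rank ≤ 1) (h0 : (B + E) - (mu : ℂ) • (B - E) ≠ 0) :
    ∃ (W : Matrix (Fin (n + 1)) (Fin (n + 1)) ℂ) (be : Fin (n + 1) → ℝ) (lam : ℝ)
      (y : Fin (n + 1) → ℝ), W * Wᴴ = 1 ∧ (∀ i, 0 ≤ be i) ∧ be 0 = 0 ∧ 0 ≤ lam ∧
      mu * lam < 1 ∧
      (∀ i, 0 ≤ y i) ∧ Wᴴ * B * W = AY mu be lam y ∧ Wᴴ * E * W = DY mu be lam y := by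
  obtain ⟨W, be, lam, y, hW, hbe, hbe0, hl, hy, h1, h2⟩ := exists_normal0 hK h.sub hr h0
  have hc : 0 < 1 + mu * lam := by positivity
  have hNN : NX be lam y = NX be (lam / (1 + mu * lam)) fun i => (1 + mu * lam) * y i := by
    unfold NX
    rw [MX_smul hc.le, smul_smul, ← Complex.ofReal_mul, div_mul_cancel₀ _ hc.ne']
  have hMM : Wᴴ * (B + E) * W = MY mu be fun i => (1 + mu * lam) * y i := by
    have e1 : B + E = ((B + E) - (mu : ℂ) • (B - E)) + (mu : ℂ) • (B - E) := by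
      rw [sub_add_cancel]
    have e2 : Wᴴ * (B + E) * W = Wᴴ * ((B + E) - (mu : ℂ) • (B - E)) * W +
        (mu : ℂ) • (Wᴴ * (B - E) * W) := by
      nth_rewrite 1 [e1]
      rw [Matrix.mul_add, Matrix.add_mul, Matrix.mul_smul, Matrix.smul_mul]
    rw [e2, h1, h2]
    unfold MY NX
    rw [MX_smul hc.le]
    push_cast
    module
  refine ⟨W, be, lam / (1 + mu * lam), fun i => (1 + mu * lam) * y i, hW, hbe, hbe0,
    div_nonneg hl hc.le, ?_, fun i => mul_nonneg hc.le (hy i), ?_, ?_⟩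
  · rw [← mul_div_assoc, div_lt_one hc]
    linarith
  · unfold AY
    rw [← hMM, ← hNN, ← h2, ← Matrix.add_mul, ← Matrix.mul_add, ← Matrix.smul_mul,
      ← Matrix.mul_smul]
    congr 2
    module
  · unfold DY
    rw [← hMM, ← hNN, ← h2, ← Matrix.sub_mul, ← Matrix.mul_sub, ← Matrix.smul_mul,
      ← Matrix.mul_smul]
    congr 2
    module

/-! ### commuting pairs -/

theorem EJ_sum {m : ℕ} : ∑ j : Fin m, EJ j = (1 : Matrix (Fin m) (Fin m) ℂ) := by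
  ext i k
  rw [Matrix.sum_apply]
  unfold EJ
  by_cases h : i = k
  · subst h
    simp [Matrix.diagonal_apply_eq]
  · simp [Matrix.diagonal_apply_ne _ h, Matrix.one_apply_ne h]

/-- `M = mu N` -/
theorem ineq_prop {p : ℝ} (hp : 0 < p) (hc : StrictCore p) {A₁ D₁ : Matrix ι ι ℂ}
    (h₁ : IsPsdPair A₁ D₁) {m : ℕ} {B E : Matrix (Fin m) (Fin m) ℂ} (h : IsPsdPair B E)
    {mu : ℝ} (h0 : (B + E) - (mu : ℂ) • (B - E) = 0) : Ineq p A₁ D₁ B E := by
  obtain ⟨U, c, hU1, hU2, hc0, hU⟩ := exists_spectral_nonneg h.sub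
  have hM : B + E = (mu : ℂ) • (B - E) := sub_eq_zero.1 h0
  refine Ineq.compress hp h₁ h (V := U) (by rw [hU2, Matrix.one_mul]) ?_
  have hN' : Uᴴ * (B - E) * U = Matrix.diagonal (fun i => (c i : ℂ)) := by
    rw [hU]
    calc Uᴴ * (U * Matrix.diagonal (fun i => (c i : ℂ)) * Uᴴ) * U =
          (Uᴴ * U) * Matrix.diagonal (fun i => (c i : ℂ)) * (Uᴴ * U) := by
          simp only [Matrix.mul_assoc]
      _ = _ := by rw [hU1, Matrix.one_mul, Matrix.mul_one]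
  have eB : B = (1 / 2 * (mu + 1) : ℂ) • (B - E) := by
    have : B = (1 / 2 : ℂ) • ((B + E) + (B - E)) := by module
    rw [hM] at this
    nth_rewrite 1 [this]
    module
  have eE : E = (1 / 2 * (mu - 1) : ℂ) • (B - E) := by
    have : E = (1 / 2 : ℂ) • ((B + E) - (B - E)) := by module
    rw [hM] at this
    nth_rewrite 1 [this]
    module
  have dB : Uᴴ * B * U = (1 / 2 * (mu + 1) : ℂ) • Matrix.diagonal (fun i => (c i : ℂ)) := by
    nth_rewrite 1 [eB]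
    rw [Matrix.mul_smul, Matrix.smul_mul, hN']
  have dE : Uᴴ * E * U = (1 / 2 * (mu - 1) : ℂ) • Matrix.diagonal (fun i => (c i : ℂ)) := by
    nth_rewrite 1 [eE]
    rw [Matrix.mul_smul, Matrix.smul_mul, hN']
  have hp2 := pair_conj h U
  have hcom : ∀ (j : Fin m) (t : ℂ), EJ j * (t • Matrix.diagonal (fun i => (c i : ℂ))) =
      (t • Matrix.diagonal (fun i => (c i : ℂ))) * EJ j := by
    intro j t
    rw [Matrix.mul_smul, Matrix.smul_mul]
    unfold EJ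
    rw [Matrix.diagonal_mul_diagonal, Matrix.diagonal_mul_diagonal]
    congr 2
    funext i
    ring
  have cB : ∀ j, EJ j * (Uᴴ * B * U) = (Uᴴ * B * U) * EJ j := by
    intro j
    rw [dB]
    exact hcom j _
  have cE : ∀ j, EJ j * (Uᴴ * E * U) = (Uᴴ * E * U) * EJ j := by
    intro j
    rw [dE]
    exact hcom j _
  refine Ineq.flag hp h₁ hp2 (P := fun j : Fin m => EJ j) (fun j => EJ_herm) (fun j => EJ_idem)
    EJ_sum cB cE fun j => ?_
  refine ineq_rank_two hp hc h₁ (IsPsdPair.flag hp2 EJ_herm EJ_idem (cB j) (cE j)) ?_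
  exact ((Matrix.rank_mul_le_left _ _).trans rank_EJ).trans (by norm_num)

/-! ### induction -/

/-- the boundary hypothesis, for all parameters -/
def Faces (p : ℝ) (A₁ D₁ : Matrix ι ι ℂ) (n : ℕ) : Prop :=
  ∀ mu : ℝ, 0 ≤ mu → ∀ lam : ℝ, 0 ≤ lam → mu * lam ≤ 1 → ∀ be : Fin (n + 1) → ℝ,
    (∀ i, 0 ≤ be i) → ∀ y : Fin (n + 1) → ℝ, (∀ i, 0 ≤ y i) → (∃ i, y i = 0) →
      Ineq p A₁ D₁ (AY mu be lam y) (DY mu be lam y)

/-- what the maximum principle gives -/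
def StrictStep2 (p : ℝ) (A₁ D₁ : Matrix ι ι ℂ) : Prop :=
  ∀ n : ℕ, Faces p A₁ D₁ n →
    ∀ mu : ℝ, 0 < mu → ∀ lam : ℝ, 0 < lam → mu * lam < 1 →
      ∀ be : Fin (n + 1) → ℝ, be 0 = 0 → (∀ j, j ≠ 0 → 0 < be j) →
      ∀ y : Fin (n + 1) → ℝ, (∀ i, 0 ≤ y i) → Ineq p A₁ D₁ (AY mu be lam y) (DY mu be lam y)

def AllStep2 (p : ℝ) (A₁ D₁ : Matrix ι ι ℂ) : Prop :=
  ∀ n : ℕ, Faces p A₁ D₁ n →
    ∀ mu : ℝ, 0 ≤ mu → ∀ lam : ℝ, 0 ≤ lam → mu * lam < 1 →
      ∀ be : Fin (n + 1) → ℝ, (∀ i, 0 ≤ be i) → be 0 = 0 →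
      ∀ y : Fin (n + 1) → ℝ, (∀ i, 0 ≤ y i) → Ineq p A₁ D₁ (AY mu be lam y) (DY mu be lam y)

theorem Ineq.lim' {p : ℝ} (hp : 0 < p) {A₁ D₁ : Matrix ι ι ℂ} (h₁ : IsPsdPair A₁ D₁)
    {A D : ℕ → Matrix κ κ ℂ} {A₀ D₀ : Matrix κ κ ℂ}
    (h : ∀ j, IsPsdPair (A j) (D j)) (h₀ : IsPsdPair A₀ D₀) (tA : Tendsto A atTop (𝓝 A₀))
    (tD : Tendsto D atTop (𝓝 D₀)) (hq : ∀ᶠ j in atTop, Ineq p A₁ D₁ (A j) (D j)) :
    Ineq p A₁ D₁ A₀ D₀ := by
  unfold Ineq
  exact le_of_tendsto_of_tendsto ((tendsto_G_seq hp (fun j => (h j).pos.1)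
    (fun j => (h j).herm) h₀.pos.1 h₀.herm tA tD).const_mul (G p A₁ D₁))
    ((tendsto_G_seq hp (fun j => hk' h₁.pos.1 (h j).pos.1) (fun j => hk' h₁.herm (h j).herm)
      (hk' h₁.pos.1 h₀.pos.1) (hk' h₁.herm h₀.herm) (tendsto_kron tA)
      (tendsto_kron tD)).const_mul (2 ^ (p - 1) - 1)) hq

theorem tendsto_MY {m : ℕ} {mu : ℕ → ℝ} {be : ℕ → Fin m → ℝ} {mu₀ : ℝ} {be₀ : Fin m → ℝ}
    (hm : Tendsto mu atTop (𝓝 mu₀)) (hb : Tendsto be atTop (𝓝 be₀)) (y : Fin m → ℝ) :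
    Tendsto (fun k => MY (mu k) (be k) y) atTop (𝓝 (MY mu₀ be₀ y)) := by
  unfold MY
  have h1 : Tendsto (fun k => (Matrix.diagonal fun i => ((be k i : ℝ) : ℂ) :
      Matrix (Fin m) (Fin m) ℂ)) atTop (𝓝 (Matrix.diagonal fun i => ((be₀ i : ℝ) : ℂ))) := by
    have h2 : Continuous fun q : Fin m → ℝ =>
        (Matrix.diagonal fun i => ((q i : ℝ) : ℂ) : Matrix (Fin m) (Fin m) ℂ) := by
      have h3 : Continuous fun q : Fin m → ℝ => fun i : Fin m => ((q i : ℝ) : ℂ) :=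
        continuous_pi fun i => Complex.continuous_ofReal.comp (continuous_apply i)
      exact h3.matrix_diagonal
    have h4 := (h2.tendsto be₀).comp hb
    simp only [Function.comp_def] at h4
    exact h4
  have h5 : Tendsto (fun k => ((mu k : ℝ) : ℂ)) atTop (𝓝 ((mu₀ : ℝ) : ℂ)) := by
    have := (Complex.continuous_ofReal.tendsto mu₀).comp hm
    simp only [Function.comp_def] at this
    exact this
  exact (h5.smul h1).const_add (MX y)

theorem tendsto_NX {m : ℕ} {be : ℕ → Fin m → ℝ} {lam : ℕ → ℝ} {be₀ : Fin m → ℝ} {lam₀ : ℝ}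
    (hb : Tendsto be atTop (𝓝 be₀)) (hl : Tendsto lam atTop (𝓝 lam₀)) (y : Fin m → ℝ) :
    Tendsto (fun k => NX (be k) (lam k) y) atTop (𝓝 (NX be₀ lam₀ y)) := by
  have ht : Tendsto (fun k => (be k, lam k)) atTop (𝓝 (be₀, lam₀)) := hb.prodMk_nhds hl
  have h2 := ((cont_NX y).tendsto (be₀, lam₀)).comp ht
  simp only [Function.comp_def] at h2
  exact h2

theorem StrictStep2.all {p : ℝ} (hp : 0 < p) {A₁ D₁ : Matrix ι ι ℂ} (h₁ : IsPsdPair A₁ D₁)
    (h : StrictStep2 p A₁ D₁) : AllStep2 p A₁ D₁ := by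
  intro n hf mu hm lam hl hml be hbe hbe0 y hy
  have tl : Tendsto (fun k => lam + eps k) atTop (𝓝 lam) := by
    simpa using tendsto_eps.const_add lam
  have tm : Tendsto (fun k => mu + eps k) atTop (𝓝 mu) := by
    simpa using tendsto_eps.const_add mu
  have tb : Tendsto (fun (k : ℕ) (i : Fin (n + 1)) => if i = 0 then (0 : ℝ) else be i + eps k)
      atTop (𝓝 be) := by
    refine tendsto_pi_nhds.2 fun i => ?_
    by_cases hi : i = 0
    · subst hi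
      simp only [if_true]
      rw [hbe0]
      exact tendsto_const_nhds
    · simp only [if_neg hi]
      simpa using tendsto_eps.const_add (be i)
  have hb : ∀ (k : ℕ) (i : Fin (n + 1)), 0 ≤ (if i = 0 then (0 : ℝ) else be i + eps k) := by
    intro k i
    by_cases hi : i = 0
    · simp [hi]
    · simp only [if_neg hi]
      linarith [hbe i, eps_pos k]
  have tA : Tendsto (fun k => AY (mu + eps k)
      (fun i : Fin (n + 1) => if i = 0 then (0 : ℝ) else be i + eps k) (lam + eps k) y) atTop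
      (𝓝 (AY mu be lam y)) := by
    unfold AY
    exact ((tendsto_MY tm tb y).add (tendsto_NX tb tl y)).const_smul (1 / 2 : ℂ)
  have tD : Tendsto (fun k => DY (mu + eps k)
      (fun i : Fin (n + 1) => if i = 0 then (0 : ℝ) else be i + eps k) (lam + eps k) y) atTop
      (𝓝 (DY mu be lam y)) := by
    unfold DY
    exact ((tendsto_MY tm tb y).sub (tendsto_NX tb tl y)).const_smul (1 / 2 : ℂ)
  have hev : ∀ᶠ k in atTop, (mu + eps k) * (lam + eps k) < 1 :=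
    (tm.mul tl).eventually_lt_const hml
  refine Ineq.lim' hp h₁ (fun k => Y_pair (y := y) (hb k) (by linarith [eps_pos k])
    (by linarith [eps_pos k])) (Y_pair hbe hl hm) tA tD (hev.mono fun k hk => ?_)
  refine h n hf (mu + eps k) (by linarith [eps_pos k]) (lam + eps k) (by linarith [eps_pos k]) hk
    _ (by simp) ?_ y hy
  intro j hj
  simp only [if_neg hj]
  linarith [hbe j, eps_pos k]

theorem rkDiff_all {p : ℝ} (hp : 0 < p) (hc : StrictCore p) {A₁ D₁ : Matrix ι ι ℂ}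
    (h₁ : IsPsdPair A₁ D₁) (hs : AllStep2 p A₁ D₁) : ∀ n : ℕ, RkDiff p A₁ D₁ n := by
  intro n
  induction n with
  | zero =>
    intro mu hm κ _ _ A D h hK hr hn
    exact ineq_rank_two hp hc h₁ h (hn.trans (by norm_num))
  | succ n ih =>
    intro mu hm κ _ _ A D h hK hr hn
    obtain ⟨V, hV⟩ := exists_support h.pos hn
    refine Ineq.compress hp h₁ h hV ?_
    have hp2 := pair_conj h V
    have e : (Vᴴ * A * V + Vᴴ * D * V) - (mu : ℂ) • (Vᴴ * A * V - Vᴴ * D * V) =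
        Vᴴ * ((A + D) - (mu : ℂ) • (A - D)) * V := by
      rw [Matrix.mul_sub, Matrix.sub_mul, Matrix.mul_smul, Matrix.smul_mul, Matrix.mul_add,
        Matrix.add_mul, Matrix.mul_sub, Matrix.sub_mul]
    have hK2 : ((Vᴴ * A * V + Vᴴ * D * V) -
        (mu : ℂ) • (Vᴴ * A * V - Vᴴ * D * V)).PosSemidef := by
      rw [e]
      exact hK.conjTranspose_mul_mul_same V
    have hr2 : ((Vᴴ * A * V + Vᴴ * D * V) -
        (mu : ℂ) • (Vᴴ * A * V - Vᴴ * D * V)).rank ≤ 1 := by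
      rw [e]
      exact (Matrix.rank_mul_le_left _ _).trans ((Matrix.rank_mul_le_right _ _).trans hr)
    by_cases h0 : (Vᴴ * A * V + Vᴴ * D * V) - (mu : ℂ) • (Vᴴ * A * V - Vᴴ * D * V) = 0
    · exact ineq_prop hp hc h₁ hp2 h0
    obtain ⟨W, be, lam, y, hW, hbe, hbe0, hl, hml, hy, e1, e2⟩ :=
      exists_normal2 hp2 hm hK2 hr2 h0
    refine Ineq.compress hp h₁ hp2 (V := W) (by rw [hW, Matrix.one_mul]) ?_
    rw [e1, e2]
    exact hs n (fun mu' hm' lam' hl' hml' be' hbe' z hz hz0 => by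
      obtain ⟨j, hj⟩ := hz0
      exact ineq_face2 hp hc h₁ ih hm' hbe' hl' hml' hj) mu hm lam hl hml be hbe hbe0 y hy

/-- pairs whose two matrices differ by a rank-one matrix, up to a factor -/
def DiffQ : MP2 := fun _ _ _ S R => ∃ mu : ℝ, 0 ≤ mu ∧
  (((S - (mu : ℂ) • R).PosSemidef ∧ (S - (mu : ℂ) • R).rank ≤ 1) ∨
    ((R - (mu : ℂ) • S).PosSemidef ∧ (R - (mu : ℂ) • S).rank ≤ 1))

theorem ineq_diff {p : ℝ} (hp : 0 < p) (hc : StrictCore p) {A₁ D₁ : Matrix ι ι ℂ}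
    (h₁ : IsPsdPair A₁ D₁) (hs : AllStep2 p A₁ D₁) {A D : Matrix κ κ ℂ} (h : IsPsdPair A D)
    (hq : DiffQ κ (A + D) (A - D)) : Ineq p A₁ D₁ A D := by
  obtain ⟨mu, hm, ⟨hK, hr⟩ | ⟨hK, hr⟩⟩ := hq
  · exact rkDiff_all hp hc h₁ hs (Fintype.card κ) mu hm κ A D h hK hr
      (Matrix.rank_le_card_width _)
  · apply Ineq.neg
    refine rkDiff_all hp hc h₁ hs (Fintype.card κ) mu hm κ A (-D) (pair_neg h) ?_ ?_
      (Matrix.rank_le_card_width _)
    · rwa [← sub_eq_add_neg, sub_neg_eq_add]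
    · rwa [← sub_eq_add_neg, sub_neg_eq_add]

theorem ineq_diff_strict {p : ℝ} (hp : 0 < p) (hc : StrictCore p)
    (hs : ∀ (ι : Type) [Fintype ι] [DecidableEq ι] (A₁ D₁ : Matrix ι ι ℂ),
      (A₁ + D₁).PosDef → (A₁ - D₁).PosDef → StrictStep2 p A₁ D₁)
    {A₁ D₁ : Matrix ι ι ℂ} (h₁ : IsPsdPair A₁ D₁) {A D : Matrix κ κ ℂ} (h : IsPsdPair A D)
    (hq : DiffQ κ (A + D) (A - D)) : Ineq p A₁ D₁ A D :=
  ineq_lim hp h (fun ι _ _ A₁ D₁ ha hb h₁ =>
    ineq_diff hp hc h₁ ((hs ι A₁ D₁ ha hb).all hp h₁) h hq) h₁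

/-! ### states -/

/-- the union of the two classes of blocks -/
def Un2Q : MP2 := fun κ _ _ S R => RkQ 2 κ S R ∨ DiffQ κ S R

theorem diffQ_conj (S R X : Matrix b b ℂ) (hX : Xᴴ = X) (h : DiffQ b S R) :
    DiffQ b (X * S * X) (X * R * X) := by
  obtain ⟨mu, hm, h⟩ := h
  have e : ∀ S R : Matrix b b ℂ, X * S * X - (mu : ℂ) • (X * R * X) =
      X * (S - (mu : ℂ) • R) * X := by
    intro S R
    rw [Matrix.mul_sub, Matrix.sub_mul, Matrix.mul_smul, Matrix.smul_mul]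
  have key : ∀ K : Matrix b b ℂ, K.PosSemidef ∧ K.rank ≤ 1 →
      (X * K * X).PosSemidef ∧ (X * K * X).rank ≤ 1 := by
    intro K hK
    refine ⟨?_, (Matrix.rank_mul_le_left _ _).trans ((Matrix.rank_mul_le_right _ _).trans hK.2)⟩
    have := hK.1.conjTranspose_mul_mul_same X
    rwa [hX] at this
  refine ⟨mu, hm, h.imp (fun h => ?_) (fun h => ?_)⟩
  · rw [e]; exact key _ h
  · rw [e]; exact key _ h

theorem flagQ_un2 {σ : Fin 2 → Matrix b b ℂ} (h : ∀ x, IsDensity (σ x)) {α : ℝ} (h0 : 0 < α)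
    (hf : DiffBlocks σ) : FlagQ Un2Q (Aop α σ + Dop α σ) (Aop α σ - Dop α σ) := by
  refine flagQ_state h0 (fun S R X hX h => h.imp (rkQ_conj 2 S R X hX)
    (diffQ_conj S R X hX)) h ?_
  obtain ⟨m, P, h1, h2, h3, h4, h5⟩ := hf
  refine ⟨m, P, h1, h2, h3, fun i => h4 i 0, fun i => h4 i 1, fun i => ?_⟩
  rcases h5 i with h6 | ⟨x, mu, hm, hx, hx'⟩
  · refine Or.inl ?_
    unfold RkQ
    rw [← Matrix.mul_add]
    exact h6
  · refine Or.inr ⟨mu, hm, ?_⟩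
    rw [Matrix.mul_sub, Matrix.mul_smul] at hx hx'
    fin_cases x
    · exact Or.inl ⟨hx, hx'⟩
    · exact Or.inr ⟨hx, hx'⟩

theorem ineq_un2 {p : ℝ} (hp : 0 < p) (hc : StrictCore p)
    (hs : ∀ (ι : Type) [Fintype ι] [DecidableEq ι] (A₁ D₁ : Matrix ι ι ℂ),
      (A₁ + D₁).PosDef → (A₁ - D₁).PosDef → StrictStep2 p A₁ D₁)
    {A₁ D₁ : Matrix ι ι ℂ} (h₁ : IsPsdPair A₁ D₁) {A D : Matrix κ κ ℂ} (h : IsPsdPair A D)
    (hq : Un2Q κ (A + D) (A - D)) : Ineq p A₁ D₁ A D := by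
  rcases hq with hq | hq
  · refine ineq_rank_two hp hc h₁ h ?_
    unfold RkQ at hq
    have e : A + D + (A - D) = ((2 : ℂ) • (1 : Matrix κ κ ℂ)) * A := by
      rw [Matrix.smul_mul, Matrix.one_mul]; module
    have e2 : A = ((1 / 2 : ℂ) • (1 : Matrix κ κ ℂ)) * (A + D + (A - D)) := by
      rw [e, ← Matrix.mul_assoc, Matrix.smul_mul, Matrix.one_mul, smul_smul]
      norm_num
    rw [e2]
    exact (Matrix.rank_mul_le_right _ _).trans hq
  · exact ineq_diff_strict hp hc hs h₁ h hq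

/-- the state-level theorem -/
theorem state_le_diff {σ₁ : Fin 2 → Matrix ι ι ℂ} {σ₂ : Fin 2 → Matrix κ κ ℂ}
    (h₁ : ∀ x, IsDensity (σ₁ x)) (h₂ : ∀ x, IsDensity (σ₂ x)) {α : ℝ} (h0 : 0 < α) (h1 : α ≠ 1)
    (hc : StrictCore α)
    (hs : ∀ (ι : Type) [Fintype ι] [DecidableEq ι] (A₁ D₁ : Matrix ι ι ℂ),
      (A₁ + D₁).PosDef → (A₁ - D₁).PosDef → StrictStep2 α A₁ D₁)
    (hf : DiffBlocks σ₁ ∨ DiffBlocks σ₂) : Hsum α σ₁ σ₂ ≤ Fval α σ₁ σ₂ := by
  refine le_of_ineq h₁ h₂ h0 h1 ?_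
  have p₁ := psdPair_state h₁ h0
  have p₂ := psdPair_state h₂ h0
  rcases hf with hf | hf
  · apply Ineq.swap
    exact Ineq.flagQ h0 (Q := Un2Q) p₂ (fun A D h hq => ineq_un2 h0 hc hs p₂ h hq) p₁
      (flagQ_un2 h₁ h0 hf)
  · exact Ineq.flagQ h0 (Q := Un2Q) p₁ (fun A D h hq => ineq_un2 h0 hc hs p₁ h hq) p₂
      (flagQ_un2 h₂ h0 hf)

end Pool.Agent.OP
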